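import Pool.Agent.H61.SC.Tab

/-!
# The exact integer checker

Units: squares `x` of the coordinates in `2^-20`; `E = 25 x` (the variable `eta = 25 x / 16` in
`2^-24`); values of `nu` in `2^-72`, slopes in `2^-48`, quadratic coefficients in `2^-24`,
exponentials in `2^-60`.  Lines and tables: `Pool.Agent.H60.SL.Ck`.
-/

set_option autoImplicit false

namespace Pool.Agent.H61.SC

open Pool.Agent.H60.SL.Ck (nn le ex t1D t1F t1M t2D t2F expU expL nd sD sF sM sMu fLo fUp PLt PHt rl rh
  lowT1 lowT2 lowT3 lowT3L upT1 upT2 upT3)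

/-- force the evaluation of a natural number -/
def fz {α : Type} (n : Nat) (f : Nat → α) : α := Nat.casesOn (motive := fun _ => α) n (f 0) (fun m => f (Nat.succ m))

/-- force the evaluation of an integer -/
def fzi {α : Type} (x : Int) (f : Int → α) : α :=
  match x with
  | .ofNat n => fz n (fun n => f (.ofNat n))
  | .negSucc n => fz n (fun n => f (.negSucc n))

def W72 : Int := 4722366482869645213696
def ONE60 : Nat := 1152921504606846976

def cdv (a b : Int) : Int := -((-a) / b)

/-! ## square roots -/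

def isqGo (n : Nat) : Nat → Nat → Nat
  | 0, g => g
  | f + 1, g => fz ((g + n / g) / 2) (fun g' => bif Nat.ble g g' then g else isqGo n f g')

def isq0 (n : Nat) : Nat := isqGo n 12 (Nat.shiftLeft 1 (Nat.log2 n / 2 + 1))

/-- `(isqLo n)^2 ≤ n` -/
def isqLo (n : Nat) : Nat := fz (isq0 n) (fun g => bif Nat.ble (g * g) n then g else 0)

/-- `n ≤ (isqHi n)^2` -/
def isqHi (n : Nat) : Nat :=
  fz (isq0 n) (fun g => bif Nat.ble n (g * g) then g else bif Nat.ble n ((g + 1) * (g + 1)) then g + 1 else n)

/-! ## lines -/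

/-- a range of `E`: `[E0, E1]` with an index `i0` (`E0 ≤ nd (i0 + 1)`) and an index `i1` (`E1 ≤ nd i1`) -/
structure Rng where
  E0 : Nat
  E1 : Nat
  i0 : Nat
  i1 : Nat

/-- `kap + a E + c E²` -/
structure Q where
  kap : Int
  a : Int
  c : Int

inductive Line
  | N
  | U (j : Nat) (c : Int)
  | E (c : Int)
  | S (kap a c : Int) (nodes : List Nat)

def fit (k : Nat) (R : Rng) : Bool := Nat.ble (k * k * R.E1) 159769600 && Nat.ble (k * R.i1) 790

/-- quadratic line touching at the node `j` -/
def lowU (k r : Nat) (R : Rng) (ge : Bool) (j : Nat) (c : Int) : Option Q :=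
  fzi (Int.sub (sD k r j) (Int.mul c (Int.ofNat (2 * nd j)))) fun a =>
  fzi (bif ge then 0 else Int.sub (Int.mul c (Int.ofNat (nd j * nd j))) (sF k r j)) fun kap =>
  bif lowT1 k r j R.E0 R.E1 R.i0 kap a c then some ⟨kap, a, c⟩ else none

/-- quadratic line through both ends -/
def lowE (k r : Nat) (R : Rng) (ge : Bool) (c : Int) : Option Q :=
  fzi (fLo k r R.i0 R.E0) fun F0 => fzi (fLo k r R.i1 R.E1) fun F1 =>
  fzi (bif ge then F1 / R.E1 - c * R.E1 else (F1 - F0) / ((R.E1 : Int) - R.E0) - c * (R.E0 + R.E1)) fun a =>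
  fzi (bif ge then 0 else F0 - a * R.E0 - c * (R.E0 * R.E0 : Nat)) fun kap =>
  bif lowT2 k r R.E0 R.E1 R.i0 R.i1 kap a c then some ⟨kap, a, c⟩ else none

def lowS (k r : Nat) (R : Rng) (ge : Bool) (kap a c : Int) (ns : List Nat) : Option Q :=
  bif (Bool.not ge || (le kap 0 && le 0 kap)) &&
    (bif Nat.beq r 0 then lowT3L k R.E0 R.E1 kap a c 0 ns
     else (match ns with
       | [] => false
       | J :: _ => lowT3 k r R.E0 R.E1 J kap a c))
  then some ⟨kap, a, c⟩ else none

/-- lower lines: `kap + a E + c E² ≤ 2^72 F_{k,r}` on the range -/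
def lowLine (k r : Nat) (R : Rng) (ge : Bool) : Line → Option Q
  | .N => none
  | .U j c => lowU k r R ge j c
  | .E c => lowE k r R ge c
  | .S kap a c ns => lowS k r R ge kap a c ns

def upU (k r : Nat) (R : Rng) (j : Nat) (c : Int) : Option Q :=
  fzi (Int.sub (sD k r j) (Int.mul c (Int.ofNat (2 * nd j)))) fun a =>
  fzi (Int.add (Int.sub (Int.mul c (Int.ofNat (nd j * nd j))) (sF k r j)) 2199023255552) fun kap =>
  bif upT1 k r j R.E1 R.i1 kap a c then some ⟨kap, a, c⟩ else none

def upE (k r : Nat) (R : Rng) (c : Int) : Option Q :=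
  fzi (fUp k r (R.i0 + 1) R.E0) fun F0 => fzi (fUp k r R.i1 R.E1) fun F1 =>
  fzi (cdv (F1 - F0) ((R.E1 : Int) - R.E0) - c * (R.E0 + R.E1)) fun a =>
  fzi (F0 - a * R.E0 - c * (R.E0 * R.E0 : Nat)) fun kap =>
  bif upT2 k r R.E0 R.E1 (R.i0 + 1) R.i1 kap a c then some ⟨kap, a, c⟩ else none

def upM (k r : Nat) (R : Rng) (c : Int) : Option Q :=
  fzi (fUp k r (R.i0 + 1) R.E0) fun F0 => fzi (fUp k r R.i1 R.E1) fun F1 =>
  fzi (imax (bif Nat.beq R.E0 0 then sD k r 0 + (2 * (k * k) : Nat) else cdv F0 R.E0 - c * R.E0)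
    (cdv F1 R.E1 - c * R.E1)) fun a =>
  bif upT3 k r R.E0 R.E1 (R.i0 + 1) R.i1 a c then some ⟨0, a, c⟩ else none

/-- upper lines: `2^72 F_{k,r} ≤ kap + a E + c E²` on the range -/
def upLine (k r : Nat) (R : Rng) (ge : Bool) : Line → Option Q
  | .N => none
  | .U j c => bif ge then none else upU k r R j c
  | .E c => bif ge then none else upE k r R c
  | .S _ _ c _ => upM k r R c

/-! ## explicit cells -/

/-- explicit cell `[lo, hi]` of a squared coordinate, with the floor indices of the ends and
`rho ≤ 2^72 log (eta lo) / 2`; `nu = false`: the coordinate carries no factor -/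
structure Cell where
  lo : Nat
  hi : Nat
  jl : Nat
  jh : Nat
  rho : Int
  nu : Bool

/-- offset of the running minima and maxima -/
def OFF : Nat := 1298074214633706907132624082305024

def nsub (k : Nat) (x : Cell) : Nat :=
  bif Nat.ble 1490260362 (k * k * 25 * x.lo) then 1
  else bif Nat.ble (x.jh - x.jl) 1 then 1
  else nmin (k * (x.jh - x.jl) / 32 + 1) (x.jh - x.jl)

/-- boundary `i` of the subcells: `(E, j)` -/
def bnd (x : Cell) (q i : Nat) : Nat × Nat :=
  bif Nat.beq i 0 then (25 * x.lo, x.jl) else bif Nat.beq i q then (25 * x.hi, x.jh)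
  else fz ((x.jl * (q - i) + x.jh * i) / q) fun j => (256 * (j * j), j)

/-- tangent data: `d = dp - dn`, `f = fp - fn`, the line is `d E - f` -/
structure Tg where
  dp : Nat
  dn : Nat
  fp : Nat
  fn : Nat

def tgConst (v : Int) : Tg := match v with
  | .ofNat m => ⟨0, 0, 0, m⟩
  | .negSucc m => ⟨0, 0, m + 1, 0⟩

/-- a line `≤ 2^72 F` on the subcell -/
def subTan (k r : Nat) (u v ju jv : Nat) (rho : Int) : Option Tg :=
  bif Nat.ble (k * k * v) 159769600 then
    bif Nat.beq r 0 then fz (nmin (k * ((ju + jv) / 2)) 790) fun J => fz (k * k * t1D J) fun d => fz (t1F J) fun f => some ⟨d, 0, f, 0⟩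
    else fz (nmin ((ju + jv) / 2) (790 / k)) fun j =>
      bif Nat.beq j 0 then some ⟨k * k * t1D 0, r * r * t1D 0, 0, 0⟩
      else some ⟨k * k * t1D (k * j), r * r * t1D (r * j), t1F (k * j) + 1099511627776, t1F (r * j)⟩
  else bif Nat.beq r 0 then
    bif Nat.ble (k * k * v) 1490260362 then
      fz (k * ((ju + jv) / 2) * 1000 / 804248) fun L =>
      bif Nat.ble 1 L && Nat.ble L 2 && Nat.ble (PLt L) (k * k * u) && Nat.ble (k * k * v) (PHt (L + 1)) then
        fz (nmin (nmax ((k * ((ju + jv) / 2) + 4) / 8) (rl L)) (rh L)) fun J =>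
          fz (k * k * n2D J) fun d => fz (k * k * 4503599627370496) fun d' => fz (n2F J) fun f => some ⟨d, d', f, 19342813113834066795298816⟩
      else
        fz ((k * ((ju + jv) / 2) * 1000 + 402124) / 804248) fun b =>
        fz (bif Nat.beq b 1 then nmin (k * ju) 790 else nmin (nmax ((k * ju + 4) / 8) (rl (b - 1))) (rh (b - 1))) fun J1 =>
        fz (nmin (nmax ((k * jv + 4) / 8) (rl b)) (rh b)) fun J2 =>
        bif Nat.ble 1 b && Nat.ble b 2 && (Nat.beq b 1 || Nat.ble (PLt (b - 1)) (k * k * u)) &&
            Nat.ble (k * k * v) (PHt (b + 1)) && (Nat.beq b 1 || le 0 (t2D J1)) && le (t2D J2) 0 then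
          some (tgConst (imin
            (bif Nat.beq b 1 then ((k * k * u * t1D J1 : Nat) : Int) - (t1F J1 : Nat) else (k * k * u : Nat) * t2D J1 - t2F J1)
            ((k * k * v : Nat) * t2D J2 - t2F J2)))
        else some (tgConst (rho + lK k))
    else some (tgConst (rho + lK k))
  else none

/-- four times the value at `u` (other end `v`), with the offset; `0` = failure -/
def wLo (dp dn fp fn ap an cp cn u v : Nat) : Nat :=
  Nat.sub (Nat.add (Nat.add (Nat.mul 4 (Nat.add (Nat.mul (Nat.add dp an) u) fn))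
      (Nat.mul cn (Nat.add (Nat.mul 3 (Nat.mul u u)) (Nat.mul 2 (Nat.mul u v))))) OFF)
    (Nat.add (Nat.add (Nat.mul 4 (Nat.add (Nat.mul (Nat.add dn ap) u) fp)) (Nat.mul 4 (Nat.mul cp (Nat.mul u u))))
      (Nat.mul cn (Nat.mul v v)))

/-- four times the minimum over one subcell -/
def subLo (k r : Nat) (x : Cell) (ap an cp cn : Nat) (u v ju jv : Nat) : Nat :=
  bif x.nu then
    match subTan k r u v ju jv x.rho with
    | none => 0
    | some ⟨dp, dn, fp, fn⟩ => nmin (wLo dp dn fp fn ap an cp cn u v) (wLo dp dn fp fn ap an cp cn v u)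
  else nmin (wLo 0 0 0 0 ap an cp cn u v) (wLo 0 0 0 0 ap an cp cn v u)

/-- minimum over `n` subcells, starting with the boundary `(u, ju)` of index `i` -/
def cellGo (k r : Nat) (x : Cell) (ap an cp cn : Nat) (q : Nat) : Nat → Nat → Nat → Nat → Nat → Nat
  | 0, _, _, _, acc => acc
  | n + 1, i, u, ju, acc =>
    match bnd x q (i + 1) with
    | (v, jv) => fz v fun v => fz (nmin acc (subLo k r x ap an cp cn u v ju jv)) fun acc =>
      cellGo k r x ap an cp cn q n (i + 1) v jv acc

/-- lower bound of `2^72 F - a E - c E²` on the cell -/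
def cellLo (k r : Nat) (x : Cell) (a c : Int) : Option Int :=
  fz (nsub k x) fun q => fz a.toNat fun ap => fz (-a).toNat fun an => fz c.toNat fun cp => fz (-c).toNat fun cn =>
  match cellGo k r x ap an cp cn q q 0 (25 * x.lo) x.jl (2 * OFF) with
  | 0 => none
  | w + 1 => some (Int.subNatNat (w + 1) OFF / 4)

/-- upper bound of `F` at the point `E` (floor index `j`) inside the lobe `L`: `(p, n)` for `p - n` -/
def nuUp3 (Y L J : Nat) : Option (Nat × Nat) :=
  fz (16384 * (J * J)) fun y0 => fz (16384 * ((J + 1) * (J + 1))) fun y1 =>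
  bif Nat.ble (rl L) J && Nat.ble (J + 1) (rh L) && Nat.ble y0 Y && Nat.ble Y y1 then
    fz (n2D J * y0 + 19342813113834616551112704 - (4503599627370496 * y0 + n2F J)) fun V0 =>
    fz (n2D (J + 1) * y1 + 19342813113834616551112704 - (4503599627370496 * y1 + n2F (J + 1))) fun V1 =>
    some ((V0 * (y1 - Y) + V1 * (Y - y0)) / (y1 - y0) + 1, 0)
  else none

def nuUp2 (Y L J : Nat) : Option (Nat × Nat) :=
  match nuUp3 Y L J with
  | some v => some v
  | none => match nuUp3 Y L (J + 1) with
    | some v => some v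
    | none => nuUp3 Y L (J - 1)

/-- the upper bound `fUp`, as a pair -/
def upPair (k r j E : Nat) : Nat × Nat :=
  fz ((256 * (j * j) - E) * (256 * (j * j) - E)) fun d2 =>
  (k * k * t1D (k * j) * E + t1F (r * j) + 1099511627776 + k * k * (k * k) * (t1M (k * j) + 2) * d2,
    r * r * t1D (r * j) * E + t1F (k * j) + r * r * (r * r) * t1M (r * j) * d2)

def nuUp (k r : Nat) (E j L : Nat) : Option (Nat × Nat) :=
  match L with
  | 0 => bif Nat.beq E 0 then some (0, 0) else
      fz (bif Nat.ble E (256 * (j * j)) then j else j + 1) fun jj =>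
        bif Nat.ble (k * jj) 790 && Nat.ble E (256 * (jj * jj)) then some (upPair k r jj E) else none
  | L' + 1 => bif Nat.beq r 0 then nuUp2 (k * k * E) (L' + 1) (k * j / 8) else none

/-- four times the value at the end `u`, with the offset -/
def wHi (p n ap an cp cn u h : Nat) : Nat :=
  (4 * (p + an * u) + 4 * (cn * (u * u)) + cp * h + OFF) - (4 * (n + ap * u) + 4 * (cp * (u * u)))

/-- maximum over `n` subcells, starting with the boundary `u` (value `p - n`) of index `i` -/
def cellHiGo (k r : Nat) (x : Cell) (ap an cp cn L q : Nat) : Nat → Nat → Nat → Nat → Nat → Nat → Option Nat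
  | 0, _, _, _, _, acc => some acc
  | m + 1, i, u, p, n, acc =>
    match bnd x q (i + 1) with
    | (v, jv) => fz v fun v =>
      match (bif x.nu then nuUp k r v jv L else some (0, 0)) with
      | none => none
      | some (p', n') => fz p' fun p' => fz n' fun n' => fz ((v - u) * (v - u)) fun h =>
        fz (nmax acc (nmax (wHi p n ap an cp cn u h) (wHi p' n' ap an cp cn v h))) fun acc =>
        cellHiGo k r x ap an cp cn L q m (i + 1) v p' n' acc

/-- upper bound of `2^72 F - a E - c E²` on the cell -/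
def cellHi (k r : Nat) (x : Cell) (a c : Int) (L : Nat) : Option Int :=
  fz (nsub k x) fun q => fz a.toNat fun ap => fz (-a).toNat fun an => fz c.toNat fun cp => fz (-c).toNat fun cn =>
  match (bif x.nu then nuUp k r (25 * x.lo) x.jl L else some (0, 0)) with
  | none => none
  | some (p, n) => match cellHiGo k r x ap an cp cn L q q 0 (25 * x.lo) p n 0 with
    | none => none
    | some w => some (cdv (Int.subNatNat w OFF) 4)

/-- lobe containing the whole cell at frequency `k` (`7` = none) -/
def lobeOf (k : Nat) (x : Cell) : Nat :=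
  bif Nat.ble (k * k * 25 * x.hi) 159769600 then 0
  else bif Nat.ble (PLt 1) (k * k * 25 * x.lo) && Nat.ble (k * k * 25 * x.hi) (PHt 2) then 1
  else bif Nat.ble (PLt 2) (k * k * 25 * x.lo) && Nat.ble (k * k * 25 * x.hi) (PHt 3) then 2
  else 7

/-! ## totals: affine functions of `s` -/

/-- `C0 + C1 s` -/
structure Aff where
  C0 : Int
  C1 : Int

def Aff.at (A : Aff) (s : Int) : Int := A.C0 + A.C1 * s

def totLo (k r : Nat) (q : Q) : List Cell → Option Int
  | [] => some 0
  | x :: xs => match cellLo k r x q.a q.c with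
    | none => none
    | some w => match totLo k r q xs with
      | none => none
      | some w' => fzi (w + w') fun z => some z

def totHi (k r : Nat) (q : Q) : List (Cell × Nat) → Option Int
  | [] => some 0
  | (x, L) :: xs => match cellHi k r x q.a q.c L with
    | none => none
    | some w => match totHi k r q xs with
      | none => none
      | some w' => fzi (w + w') fun z => some z

/-- `m` = number of remaining coordinates (irrelevant when `kap = 0`) -/
def affOf (m : Nat) (q : Q) (w : Int) : Aff :=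
  ⟨m * q.kap + q.a * 26214400 + w, q.c * 655360000⟩

def affLo (k r m : Nat) (ge : Bool) (R : Rng) (xs : List Cell) (l : Line) : Option Aff :=
  match lowLine k r R ge l with
  | none => none
  | some q => match totLo k r q xs with
    | none => none
    | some w => some (affOf m q w)

def affHi (k r m : Nat) (ge : Bool) (R : Rng) (xs : List (Cell × Nat)) (l : Line) : Option Aff :=
  match upLine k r R ge l with
  | none => none
  | some q => match totHi k r q xs with
    | none => none
    | some w => some (affOf m q w)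

/-! ## exponentials -/

/-- end values (at `s0`, `s1`) of an affine upper bound of `2^60 exp (-(R(s)) / 2^72)` -/
def setU (R0 R1 : Int) : Option (Nat × Nat) :=
  match R0, R1 with
  | .ofNat a, .ofNat b => fz (expU a) fun u => fz (expU b) fun v => some (u, v)
  | _, _ => none

/-- end values of an affine lower bound -/
def setL (sh : Int) (A : Aff) (s0 s1 : Int) : Nat × Nat :=
  match cdv (2 * (sh + A.C0) + A.C1 * (s0 + s1)) 2 with
  | .negSucc _ => (0, 0)
  | .ofNat Rm =>
    fzi (A.C1 * (s1 - s0) / 2) fun t =>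
    match W72 + t, W72 - t - 1 with
    | .ofNat h, .ofNat l => fz (expL Rm / 256) fun e =>
      fz (e * (h / 1048576) / 17592186044416) fun a => fz (e * (l / 1048576) / 17592186044416) fun b => (a, b)
    | _, _ => (0, 0)

end Pool.Agent.H61.SC
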