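import Pool.Agent.H61.SC.Defs

/-!
# The checks of the leaves
-/

set_option autoImplicit false

namespace Pool.Agent.H61.SC

open Pool.Agent.H60.SL.Ck (nn le ex t1D t1F t1M t2D t2F expU expL nd)

/-- bounds (in `2^-20`) for the three largest squares, for the smallest square `g` and for
`S = ∑ x²` -/
structure Box where
  lo0 : Nat
  hi0 : Nat
  lo1 : Nat
  hi1 : Nat
  lo2 : Nat
  hi2 : Nat
  g0 : Nat
  g1 : Nat
  s0 : Nat
  s1 : Nat

/-- classes `3` (`n = 3, 4`) and `8` (`n ≥ 8`): the number of coordinates is not known -/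
def isGe (cls : Nat) : Bool := Nat.beq cls 8 || Nat.beq cls 3

def capX (cls : Nat) (B : Box) (r : Nat) : Nat :=
  match r with
  | 0 => B.hi0
  | 1 => B.hi1
  | 2 => B.hi2
  | _ => bif Nat.beq cls 3 then B.hi2 else nmin B.hi2 (1048576 - B.lo0 - B.lo1 - B.lo2 - (cls - 4) * B.g0)

/-- lower end for the squares that are not explicit, when the smallest one is explicit -/
def gLow (cls : Nat) (B : Box) : Nat :=
  bif isGe cls then B.g0 else nmax B.g0 (1048576 - B.hi0 - B.hi1 - (cls - 4) * B.hi2 - B.g1)

/-- `rho / 2^72 ≤ log (E / 2^24) / 2` -/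
def rhoE (E : Nat) (rho : Int) : Bool :=
  match rho with
  | .ofNat m => Nat.ble 19342813113834066795298816 (E * expL (2 * m))
  | .negSucc m => Nat.ble (expU (2 * (m + 1))) (E * 68719476736)

/-- a usable value: either a true bound or so small that `rho + log k ≤ 0` -/
def rhoOK (E : Nat) (rho : Int) : Bool := le rho (-18889465931478580854784) || rhoE E rho

def mkCell (lo hi : Nat) (rho : Int) (nu : Bool) : Cell :=
  ⟨lo, hi, isqLo (25 * lo / 256), isqLo (25 * hi / 256), rho, nu⟩

def mkRng (g0 cap : Nat) : Rng :=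
  fz (isqLo (25 * g0 / 256)) fun i0 => fz (isqLo (25 * cap / 256)) fun j =>
  fz (25 * g0) fun E0 => fz (25 * cap) fun E1 =>
  ⟨E0, E1, i0, bif Nat.ble E1 (nd j) then j else j + 1⟩

def rngOK (R : Rng) : Bool := Nat.ble R.E0 (nd (R.i0 + 1)) && Nat.ble R.E1 (nd R.i1) && Nat.ble R.E0 R.E1

/-! ## reading data -/

def rdI (w n : Nat) : Int := Int.ofNat (n % 2 ^ w) - Int.ofNat (2 ^ (w - 1))

def rdNodes (n : Nat) : List Nat :=
  [n % 1024, n / 1024 % 1024, n / 1048576 % 1024, n / 1073741824 % 1024, n / 1099511627776 % 1024,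
    n / 1125899906842624 % 1024, n / 1152921504606846976 % 1024]

def c48 (n : Nat) : Int := Int.ofNat (n % 281474976710656) - 140737488355328

/-- read one line -/
def rdLine (n : Nat) : Line × Nat :=
  match n % 8 with
  | 1 => (.U (n / 8 % 1024) (c48 (n / 8192)), n / 2305843009213693952)
  | 2 => (.E (c48 (n / 8)), n / 2251799813685248)
  | 3 => (.S (c48 (n / 8) * 1099511627776) (c48 (n / 2251799813685248) * 65536)
      (c48 (n / 633825300114114700748351602688)) (rdNodes (n / 178405961588244985132285746181186892047843328)),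
      n / 210624583337114373395836055367340864637790190801098222508621955072)
  | 4 => (.S 0 0 (c48 (n / 8)) [], n / 2251799813685248)
  | _ => (.N, n / 8)

/-! ## the `T` leaf -/

/-- sign (`0` unknown, `1` positive, `2` negative) and end values of the affine bounds of
`2^60 |Φ_k|` -/
structure TB where
  sg : Nat
  U0 : Nat
  U1 : Nat
  L0 : Nat
  L1 : Nat

def withLobe (k : Nat) : List Cell → List (Cell × Nat)
  | [] => []
  | x :: xs => (x, lobeOf k x) :: withLobe k xs

def sgnOf : List (Cell × Nat) → Nat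
  | [] => 1
  | (_, L) :: xs => match L, sgnOf xs with
    | 0, s => s
    | 2, s => s
    | 1, 1 => 2
    | 1, 2 => 1
    | _, _ => 0

def tK (k m : Nat) (ge : Bool) (R : Rng) (xs : List Cell) (s0 s1 : Int) (lo up : Line) : TB :=
  let U : Nat × Nat := match affLo k 0 m ge R xs lo with
    | none => (ONE60, ONE60)
    | some A => match setU (A.at s0) (A.at s1) with
      | none => (ONE60, ONE60)
      | some u => u
  match U with
  | (u0, u1) => fz u0 fun u0 => fz u1 fun u1 =>
    match (bif fit k R then sgnOf (withLobe k xs) else 0) with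
    | 0 => ⟨0, u0, u1, 0, 0⟩
    | sg + 1 => match affHi k 0 m ge R (withLobe k xs) up with
      | none => ⟨sg + 1, u0, u1, 0, 0⟩
      | some A => match setL 0 A s0 s1 with
        | (l0, l1) => fz l0 fun l0 => fz l1 fun l1 => ⟨sg + 1, u0, u1, l0, l1⟩

/-- the list of the bounds for `k, k + 1, …` (`n` of them) -/
def tbs (m : Nat) (ge : Bool) (R : Rng) (xs : List Cell) (s0 s1 : Int) : Nat → Nat → Nat → List TB
  | 0, _, _ => []
  | n + 1, k, dat =>
    match rdLine dat with
    | (lo, dat) => match rdLine dat with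
      | (up, dat) => fz dat fun dat => tK k m ge R xs s0 s1 lo up :: tbs m ge R xs s0 s1 n (k + 1) dat

/-- `(pos0, neg0, pos1, neg1)` -/
def nodeGo : List (Bool × Nat) → List TB → Nat → Nat → Nat → Nat → Nat × Nat × Nat × Nat
  | (b, σ) :: ss, t :: ts, p0, n0, p1, n1 =>
    bif (match t.sg, b with | 1, true => true | 2, false => true | _, _ => false) then
      fz (p0 + t.L0 * σ) fun p0 => fz (p1 + t.L1 * σ) fun p1 => nodeGo ss ts p0 n0 p1 n1
    else
      fz (n0 + t.U0 * (σ + 1)) fun n0 => fz (n1 + t.U1 * (σ + 1)) fun n1 => nodeGo ss ts p0 n0 p1 n1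
  | _, _, p0, n0, p1, n1 => (p0, n0, p1, n1)

def nodeOK (ts : List TB) (rem : Nat) (row : List (Bool × Nat)) (thr : Nat) : Bool :=
  match nodeGo row ts 0 (rem * 4294967296) 0 (rem * 4294967296) with
  | (p0, n0, p1, n1) => Nat.ble (n0 + thr * 1048576) p0 && Nat.ble (n1 + thr * 1048576) p1

def nodesOK (ts : List TB) (rem : Nat) : Nat → List (List (Bool × Nat)) → List Nat → Bool
  | 0, _, _ => true
  | n + 1, row :: rows, thr :: thrs => nodeOK ts rem row thr && nodesOK ts rem n rows thrs
  | _ + 1, _, _ => false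

def thrOf (cls : Nat) : List Nat :=
  match cls with
  | 3 => thr3
  | 5 => thr5
  | 6 => thr6
  | 7 => thr7
  | 8 => thr8
  | _ => []

def qselOf (cls : Nat) : List Nat :=
  match cls with
  | 3 => qsel3
  | 5 => qsel5
  | 6 => qsel6
  | 7 => qsel7
  | 8 => qsel8
  | _ => []

def tauOf (cls : Nat) : List Nat :=
  match cls with
  | 3 => tau3
  | 5 => tau5
  | 6 => tau6
  | 7 => tau7
  | 8 => tau8
  | _ => []

/-- the explicit part of the exponent of the remainder: sum of `rho + lx` and number of terms -/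
def remGo (lx : Int) : List Cell → Int × Nat
  | [] => (0, 0)
  | x :: xs => match remGo lx xs with
    | (R, e) => bif le 0 (x.rho + lx) then (R + (x.rho + lx), e + 1) else (R, e)

def sumHi : List Cell → Nat
  | [] => 0
  | x :: xs => x.hi + sumHi xs

/-- upper bound of `2^60 ∑_{k > 20} |Φ_k| / k` -/
def remT (cap : Nat) (rc : Int) (xs : List Cell) : Option Nat :=
  fz (1048576 - sumHi xs) fun N =>
  match remGo lxT xs with
  | (R, e) => match R + (N * (rc + lxT)) / cap with
    | .negSucc _ => none
    | .ofNat R => bif Nat.ble 32480690176 (25 * cap * 168100) && rhoE (25 * cap) rc && Nat.ble 1 (e * cap + N) then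
        some (expU R * cap / (e * cap + N) + 1) else none

/-- all the checks of the `T` part: on the nodes `is, …, ie` the bound `T ≤ tau` holds.
Explicit coordinates: the `r` largest ones and, if `gx`, the smallest one. -/
def tCheck (cls : Nat) (B : Box) (r : Nat) (gx : Bool) (is ie : Nat) (rho1 rho2 rho3 rhoG rc : Int) (dat : Nat) : Bool :=
  let tl : List Cell := bif gx then [mkCell B.g0 B.g1 rhoG true] else []
  let xs : List Cell := match r with
    | 1 => mkCell B.lo0 B.hi0 rho1 true :: tl
    | 2 => mkCell B.lo0 B.hi0 rho1 true :: mkCell B.lo1 B.hi1 rho2 true :: tl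
    | _ => mkCell B.lo0 B.hi0 rho1 true :: mkCell B.lo1 B.hi1 rho2 true :: mkCell B.lo2 B.hi2 rho3 true :: tl
  let R := mkRng (bif gx then gLow cls B else B.g0) (capX cls B r)
  let cap' := nmax (capX cls B r) 7900
  Nat.ble 1 r && Nat.ble r 3 && rngOK R && Nat.ble is ie && Nat.ble ie (bif Nat.beq cls 3 then 19 else 31) &&
  (Bool.not gx || (Nat.ble 5 cls && rhoOK (25 * B.g0) rhoG)) &&
  rhoOK (25 * B.lo0) rho1 && (Nat.ble r 1 || rhoOK (25 * B.lo1) rho2) && (Nat.ble r 2 || rhoOK (25 * B.lo2) rho3) &&
  match remT cap' rc xs with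
  | none => false
  | some rem => nodesOK (tbs (bif isGe cls then 0 else bif gx then cls - 1 - r else cls - r) (isGe cls) R xs B.s0 B.s1 20 1 dat) rem
      (ie + 1 - is) (sigL.drop is) ((thrOf cls).drop is)

end Pool.Agent.H61.SC
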