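import Pool.Agent.H61.SC.Leaf
import Pool.Agent.H60.SL.CkKDefs

/-!
# The checks of the `P` part
-/

set_option autoImplicit false

namespace Pool.Agent.H61.SC

open Pool.Agent.H60.SL.Ck (nn le ex t1D t1F t1M t2D t2F expU expL nd kiCoef kiLo kiHi)

/-! ## the function `K`: coefficient lists of the corners, evaluated at `k` (scale `2^60`) -/

/-- lower bound of `2^60 KI` (for nonnegative `KI`) -/
def kLow (l : List Nat) (k : Nat) : Nat := (kiLo l k).toNat

/-- upper bound of `2^60 KI` -/
def kUp (l : List Nat) (k : Nat) : Nat := (kiHi l k).toNat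

/-- force the evaluation of a list of numbers -/
def fzl {α : Type} : List Nat → (List Nat → α) → α
  | [], f => f []
  | x :: xs, f => fz x fun x => fzl xs fun xs => f (x :: xs)

def U449 : Nat := 338230352
def U576 : Nat := 556627761

/-! ## one frequency -/

/-- data common to all frequencies -/
structure PC where
  r : Nat
  m : Nat
  ge : Bool
  R : Rng
  /-- all cells: `α`, `γ` (without factor) and the explicit others -/
  xs : List Cell
  s0 : Int
  s1 : Int
  EA0 : Nat
  EA1 : Nat
  EG0 : Nat
  EG1 : Nat
  /-- coefficient lists of `K` for the corners `(EA0, EG0)`, `(EA1, EG1)`, `(EG0, EG0)` -/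
  C0 : List Nat
  C1 : List Nat
  CG : List Nat
  KL0 : Nat
  KU0 : Nat
  KL1 : Nat
  KU1 : Nat
  /-- upper bound of the total of `nu` at frequency `r` -/
  Ar : Aff

def SH : Int := 37778931862957161709568

def lobe0 (k : Nat) : List Cell → Bool
  | [] => true
  | x :: xs => (Bool.not x.nu || Nat.ble (k * k * 25 * x.hi) 159769600) && lobe0 k xs

def zipZero : List Cell → List (Cell × Nat)
  | [] => []
  | x :: xs => (x, 0) :: zipZero xs

/-- end values of the affine bounds of `2^60 e^-8 Φ_k / Φ_r` (absolute value for the upper one) -/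
structure RB where
  U0 : Nat
  U1 : Nat
  L0 : Nat
  L1 : Nat

def negA (A : Aff) : Aff := ⟨-A.C0, -A.C1⟩

def mkRB (U : Option (Nat × Nat)) (L : Nat × Nat) : Option RB :=
  match U with
  | none => none
  | some (u0, u1) => match L with
    | (l0, l1) => some ⟨u0, u1, l0, l1⟩

def ratB (c : PC) (k : Nat) (A B : Line) : Option RB :=
  bif fit k c.R && lobe0 k c.xs then
    bif Nat.ble k c.r then
      -- k < r
      match affHi c.r k c.m c.ge c.R (zipZero c.xs) B with
      | none => none
      | some h => mkRB (setU (SH - h.at c.s0) (SH - h.at c.s1))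
        (match affLo c.r k c.m c.ge c.R c.xs A with
          | none => (0, 0)
          | some l => setL SH (negA l) c.s0 c.s1)
    else
      match affLo k c.r c.m c.ge c.R c.xs A with
      | none => none
      | some l => mkRB (setU (SH + l.at c.s0) (SH + l.at c.s1))
        (match affHi k c.r c.m c.ge c.R (zipZero c.xs) B with
          | none => (0, 0)
          | some h => setL SH h c.s0 c.s1)
  else
    bif Nat.ble k c.r then none else
    match affLo k 0 c.m c.ge c.R c.xs A with
    | none => none
    | some l => mkRB (setU (SH + l.at c.s0 - c.Ar.at c.s0) (SH + l.at c.s1 - c.Ar.at c.s1)) (0, 0)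

/-- upper bound of `2^60 |K|` beyond `4.49`, with the given mode -/
def kBey (c : PC) (k mode kb : Nat) : Option Nat :=
  fz (k * k * c.EA0) fun U0 => fz (k * k * c.EG0) fun V0 =>
  match mode with
  | 0 => some ONE60
  | 1 => bif Nat.ble U0 U449 && Nat.ble (k * k * c.EG1) U449 then
      fz (kUp c.C0 k) fun z =>
        some (bif Nat.ble (k * k * c.EA1) U576 then z else nmax z 102560755402973937)
      else none
  | 2 => bif Nat.ble 1814082401526750740748543143307015594253580723450105974226944 (kb * kb * (U0 * U0 * U0)) then some kb else none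
  | 3 => bif Nat.ble U449 U0 && Nat.ble U449 V0 then some (251 * 324518553658426726783156020576256 / (10 * (U0 * V0)) + 1) else none
  | 4 => bif Nat.ble U449 U0 && Nat.ble V0 U449 &&
        Nat.ble (251 * (kUp c.CG k * 324518553658426726783156020576256)) (kb * kb * (U0 * U0 * 10)) then some kb else none
  | _ => none

/-- the factor `K_k / K_r` (upper and lower, scale `2^30`) -/
def kFac (c : PC) (k mode kb : Nat) : Option (Nat × Nat) :=
  bif Nat.ble (k * k * c.EA1) U449 then
    bif Nat.ble k c.r then
      fz (kUp c.C1 k * 1073741824 / c.KL1 + 1) fun u =>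
      fz (kLow c.C0 k * 1073741824 / c.KU0) fun l => some (u, l)
    else
      fz (kUp c.C0 k * 1073741824 / c.KL0 + 1) fun u =>
      fz (kLow c.C1 k * 1073741824 / c.KU1) fun l => some (u, l)
  else match kBey c k mode kb with
    | none => none
    | some z => fz (z * 1073741824 / c.KL1 + 1) fun u => some (u, 0)

/-- contribution of a frequency with the coefficient `D` (error `w`); `L = 0` means that the sign
of the value is not known -/
def contr (D w : Int) (L U : Nat) : Int :=
  match D - w with
  | .ofNat (d + 1) => bif Nat.beq L 0 then -(((D.natAbs : Int) + w) * U) else (d + 1 : Nat) * (L : Int)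
  | _ => -(((D.natAbs : Int) + w) * U)

structure SS where
  a0 : Int
  a1 : Int
  b0 : Int
  b1 : Int

def pStep (c : PC) (k : Nat) (c0 c1 : Int) (rb : RB) (ku kl : Nat) (S : SS) : SS :=
  fz (rb.U0 * ku / 1073741824 + 1) fun U0 => fz (rb.U1 * ku / 1073741824 + 1) fun U1 =>
  fz (rb.L0 * kl / 1073741824) fun L0 => fz (rb.L1 * kl / 1073741824) fun L1 =>
  fzi (25 * k * k) fun w => fzi (w * (c0 - c1)) fun D => fzi (-(w * c1)) fun D' =>
  fzi (S.a0 + contr D w L0 U0) fun a0 => fzi (S.a1 + contr D w L1 U1) fun a1 =>
  fzi (S.b0 + contr D' w L0 U0) fun b0 => fzi (S.b1 + contr D' w L1 U1) fun b1 => ⟨a0, a1, b0, b1⟩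

/-- the sums over `k, k + 1, …` (`n` of them); `None` on failure -/
def pGo (c : PC) : Nat → Nat → List Int → List Int → Nat → SS → Option SS
  | 0, _, _, _, _, S => some S
  | n + 1, k, c0 :: cs0, c1 :: cs1, dat, S =>
    bif Nat.beq k c.r then
      fz (expU 37778931862957161709568) fun u => fz (expL 37778931862957161709568) fun l =>
      match pStep c k c0 c1 ⟨u, u, l, l⟩ 1073741824 1073741824 S with
      | S' => pGo c n (k + 1) cs0 cs1 dat S'
    else
      match rdLine dat with
      | (A, dat) => match rdLine dat with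
        | (B, dat) =>
          match ratB c k A B with
          | none => none
          | some rb => match kFac c k (dat % 8) (dat / 8 % 2305843009213693952) with
            | none => none
            | some (ku, kl) => fz (dat / 18446744073709551616) fun dat =>
              match pStep c k c0 c1 rb ku kl S with
              | S' => pGo c n (k + 1) cs0 cs1 dat S'
  | _ + 1, _, _, _, _, _ => none

/-- exponent of the decay factor of the explicit others, and their number -/
def remGoP (lx : Int) : List Cell → Int × Nat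
  | [] => (0, 0)
  | x :: xs => match remGoP lx xs with
    | (R, e) => bif x.nu && le 0 (x.rho + lx) then (R + (x.rho + lx), e + 1) else (R, e)

/-- the remainder exponent and the data `(R, q, kc)`: the remainder is
`25 (65/2)^3 kc cap / q exp (-R)` -/
def remP (cap N : Nat) (rc rA rG : Int) (EA0 EG0 : Nat) (xs : List Cell) (mode : Nat) : Option (Int × Nat × Nat) :=
  match remGoP lxP xs with
  | (R, e) =>
    bif Nat.ble 32480690176 (25 * cap * 422500) && rhoE (25 * cap) rc then
      match mode with
      | 0 => bif Nat.ble (3 * cap + 1) (e * cap + N) then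
          some (R + N * (rc + lxP) / cap, e * cap + N - 3 * cap, 1) else none
      | 1 => bif rhoE EA0 rA && Nat.ble 1 (e * cap + N) then
          some (R + N * (rc + lxP) / cap + 3 * (rA + lxP), e * cap + N, 17) else none
      | 2 => bif rhoE EA0 rA && rhoE EG0 rG && Nat.ble 1358954496 (EA0 * 4225) && Nat.ble 1358954496 (EG0 * 4225) then
          some (R + N * (rc + lxP) / cap + 2 * (rA + lxP) + 2 * (rG + lxP), (e + 1) * cap + N, 26) else none
      | _ => none
    else none

/-- `2^100`-scaled remainder at one end; `none` if the exponent is negative -/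
def remV (E : Int) (cap q kc KL1 : Nat) : Option Nat :=
  match E with
  | .negSucc _ => none
  | .ofNat R => some (expU R * (25 * 274625 * kc * cap * 1267650600228229401496703205376) / (8 * q * KL1) + 1)

/-- `2^100`-scaled alias term, `t` in thousandths -/
def aliasV (mode : Nat) (lo0 g0 p1 t : Nat) (E : Int) (KL1 : Nat) : Option Nat :=
  match mode with
  | 1 => fz (5270716 - (t * 1048576 / 1000 + 1) - p1) fun y =>
      fz (isqLo (lo0 * 1048576)) fun pa =>
      match Int.ofNat (3 * (y * y) * 2251799813685248 / (1048576 - lo0 - g0)) + E with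
      | .negSucc _ => none
      | .ofNat R => bif Nat.ble 1 (lo0 * pa) then
          some (expU R * (604 * 1393796574908163946345982392040522594123776) / (lo0 * pa * KL1) + 1) else none
  | 2 => fz (5270716 - (t * 1048576 / 1000 + 1) - p1 - 943719) fun y =>
      match Int.ofNat (3 * (y * y) * 2251799813685248 / (1048576 - lo0 - g0)) + E with
      | .negSucc _ => none
      | .ofNat R => some (expU R * (1505 * 1267650600228229401496703205376) / KL1 + 1)
  | _ => none

def pEnd (a b : Int) (v al1 al0 : Option Nat) : Bool :=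
  match v, al1, al0 with
  | some v, some x1, some x0 => le (2 * v + x1 + x0 + 1) a && le (v + x1 + 1) b
  | _, _, _ => false

/-- all the checks of the `P` part: `rr - 1` explicit others, reference frequency `r`,
`t0 = ptn ti` -/
def pCheck (cls : Nat) (B : Box) (rr r ti : Nat) (rA rG rB rc : Int) (rmode amode : Nat) (dat : Nat) : Bool :=
  let xs : List Cell := match rr with
    | 1 => [mkCell B.lo0 B.hi0 rA false, mkCell B.g0 B.g1 rG false]
    | _ => [mkCell B.lo0 B.hi0 rA false, mkCell B.g0 B.g1 rG false, mkCell B.lo1 B.hi1 rB true]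
  let R := mkRng (gLow cls B) (capX cls B rr)
  let m := bif isGe cls then 0 else cls - 1 - rr
  let cap' := nmax (capX cls B rr) 7900
  Nat.ble 1 rr && Nat.ble rr 2 && Nat.ble 1 r && Nat.ble r 32 && Nat.ble B.hi0 1048576 && rngOK R && Nat.ble 5 cls && (Nat.ble rr 1 || rhoOK (25 * B.lo1) rB) &&
  Nat.ble (r * r * (25 * B.hi0)) U449 && Nat.ble B.g1 B.hi0 && fit r R && lobe0 r xs && Nat.ble (B.lo0 + B.g0 + 1) 1048576 &&
  match rdLine dat with
  | (Lr, dat) => match affHi r 0 m (isGe cls) R (zipZero xs) Lr with
    | none => false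
    | some Ar =>
      fz (25 * B.lo0) fun EA0 => fz (25 * B.hi0) fun EA1 => fz (25 * B.g0) fun EG0 => fz (25 * B.g1) fun EG1 =>
      fzl (kiCoef EA0 EG0) fun C0 => fzl (kiCoef EA1 EG1) fun C1 =>
      fz (kLow C0 r) fun KL0 => fz (kUp C0 r) fun KU0 =>
      fz (kLow C1 r) fun KL1 => fz (kUp C1 r) fun KU1 =>
      Nat.ble 1 KL1 && Nat.ble 1 KL0 &&
      match pGo ⟨r, m, isGe cls, R, xs, B.s0, B.s1, EA0, EA1, EG0, EG1, C0, C1, kiCoef EG0 EG0, KL0, KU0, KL1, KU1, Ar⟩ 32 1
          (ct0.getD ti []) (ct20.getD ti []) dat ⟨0, 0, 0, 0⟩ with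
      | none => false
      | some S =>
        match remP cap' (1048576 - B.hi0 - B.g1 - (bif Nat.beq rr 2 then B.hi1 else 0)) rc rA rG EA0 EG0 xs rmode with
        | none => false
        | some (R', q, kc) =>
          fz (isqHi (B.hi0 * 1048576) + isqHi (B.g1 * 1048576)) fun p1 =>
          fzi (SH - Ar.at B.s0) fun e0 => fzi (SH - Ar.at B.s1) fun e1 =>
          pEnd S.a0 S.b0 (remV (R' + e0) cap' q kc KL1) (aliasV amode B.lo0 B.g0 p1 (ptn.getD ti 0 - 20) e0 KL1)
            (aliasV amode B.lo0 B.g0 p1 (ptn.getD ti 0) e0 KL1) &&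
          pEnd S.a1 S.b1 (remV (R' + e1) cap' q kc KL1) (aliasV amode B.lo0 B.g0 p1 (ptn.getD ti 0 - 20) e1 KL1)
            (aliasV amode B.lo0 B.g0 p1 (ptn.getD ti 0) e1 KL1)

end Pool.Agent.H61.SC
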