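import Pool.Agent.H61.SC.PLeaf

/-!
# Leaves, clipping and the tree of boxes
-/

set_option autoImplicit false

namespace Pool.Agent.H61.SC

open Pool.Agent.H60.SL.Ck (nn le expU expL)

/-! ## leaves -/

inductive Leaf
  | T (B : Box) (r : Nat) (gx : Bool) (is ie : Nat) (rho1 rho2 rho3 rhoG rc : Int) (dat : Nat)
  | U (B : Box) (is ie : Nat)
  | TP (B : Box) (r : Nat) (gx : Bool) (is ie : Nat) (rho1 rho2 rho3 rhoG rc : Int) (dat : Nat)
      (rr pr ti : Nat) (rA rG rB rcp : Int) (rmode amode : Nat) (pdat : Nat)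

def Leaf.box : Leaf → Box
  | .T B _ _ _ _ _ _ _ _ _ _ => B
  | .U B _ _ => B
  | .TP B _ _ _ _ _ _ _ _ _ _ _ _ _ _ _ _ _ _ _ _ => B

/-- every relevant `t` is at least the node `is` -/
def startOK (B : Box) (is : Nat) : Bool :=
  Nat.beq is 0 || (Nat.ble 94372 B.lo1 &&
    Nat.ble (tn is * 1048576) (1000 * (isqLo (B.lo0 * 1048576) + isqLo (B.lo1 * 1048576))))

/-- every relevant `t` is at most the node `i` -/
def fullOK (cls : Nat) (B : Box) (i : Nat) : Bool :=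
  Nat.ble 73400320000000 (21 * (tn i * tn i) * 1048576 + 40000000 * (B.lo0 + B.g0)) ||
  (Nat.beq cls 3 && Nat.ble (1000 * (isqHi (B.hi0 * 1048576) + isqHi (B.hi1 * 1048576))) (tn i * 1048576))

/-- `ta = tau_{i+1}`, … for the intervals `i, i + 1, …` (`n` of them) -/
def uGo (AB N p1 : Nat) : Nat → Nat → List Nat → Bool
  | 0, _, _ => true
  | n + 1, i, ta :: tas =>
    (Nat.ble (N * 1099511627776) (24 * AB * ta) ||
      fz (tn i * 1048576 / 1000 - p1) fun c =>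
        Nat.ble 1 c && Nat.ble (N * N * 1048576 * 1099511627776) (384 * AB * (c * c) * ta)) &&
    uGo AB N p1 n (i + 1) tas
  | _ + 1, _, [] => false

def uCheck (cls : Nat) (B : Box) (is ie : Nat) : Bool :=
  Nat.ble 94372 B.lo1 && Nat.ble ie 31 && Nat.ble 5 cls && Nat.ble is ie &&
  fz (isqLo (B.lo0 * B.lo1)) fun AB =>
  fz (isqHi (B.hi0 * 1048576) + isqHi (B.hi1 * 1048576)) fun p1 =>
  uGo AB (1048576 - B.lo0 - B.lo1) p1 (ie - is) is ((tauOf cls).drop (is + 1))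

def leafOK (cls : Nat) : Leaf → Bool
  | .T B r gx is ie rho1 rho2 rho3 rhoG rc dat =>
    startOK B is && fullOK cls B ie && tCheck cls B r gx is ie rho1 rho2 rho3 rhoG rc dat
  | .U B is ie => startOK B is && fullOK cls B ie && uCheck cls B is ie
  | .TP B r gx is ie rho1 rho2 rho3 rhoG rc dat rr pr ti rA rG rB rcp rmode amode pdat =>
    startOK B is && tCheck cls B r gx is ie rho1 rho2 rho3 rhoG rc dat &&
    Nat.ble ti 16 && Nat.ble (ptn.getD ti 0) (tn ie) && pCheck cls B rr pr ti rA rG rB rcp rmode amode pdat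

/-! ## clipping -/

/-- `⌈a / b⌉` -/
def cdvN (a b : Nat) : Nat := (a + (b - 1)) / b

/-- one round of clipping without the bounds for `s`; `n` = (minimal) number of coordinates -/
def clip1 (ge : Bool) (n : Nat) (B : Box) : Option Box :=
  -- ordering
  fz (nmin B.hi1 B.hi0) fun hi1 => fz (nmin B.hi2 hi1) fun hi2 => fz (nmin B.g1 hi2) fun g1 =>
  fz (nmax B.lo2 B.g0) fun lo2 => fz (nmax B.lo1 lo2) fun lo1 => fz (nmax B.lo0 lo1) fun lo0 =>
  -- squares
  fz (B.s1 * 1048576) fun q => fz (nmin B.hi0 (isqHi q)) fun hi0 =>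
  bif Nat.blt q (lo0 * lo0) then none else
  fz (q - lo0 * lo0) fun q => fz (nmin hi1 (isqHi q)) fun hi1 => fz (nmin hi2 (isqHi (cdvN q 2))) fun hi2 =>
  bif Nat.blt q (lo1 * lo1) then none else
  fz (q - lo1 * lo1) fun q => fz (nmin hi2 (isqHi q)) fun hi2 =>
  -- sums
  fz ((n - 3) * B.g0) fun R =>
  fz (nmin hi0 (1048576 - lo1 - lo2 - R)) fun hi0 =>
  fz (nmin (nmin hi1 (1048576 - lo0 - lo2 - R)) (cdvN (1048576 - lo2 - R) 2)) fun hi1 =>
  fz (nmin (nmin (nmin hi2 (1048576 - lo0 - lo1 - R)) (cdvN (1048576 - lo0 - R) 2)) (cdvN (1048576 - R) 3)) fun hi2 =>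
  fz (nmin (bif Nat.ble n 3 then g1 else nmin g1 (cdvN (1048576 - lo0 - lo1 - lo2) (n - 3))) hi2) fun g1 =>
  fz (bif ge then lo0 else nmax lo0 (1048576 - hi1 - (n - 3) * hi2 - g1)) fun lo0 =>
  fz (bif ge then lo1 else nmax (nmax lo1 (1048576 - hi0 - (n - 3) * hi2 - g1)) ((1048576 - hi0 - g1) / (n - 2))) fun lo1 =>
  fz (bif ge then lo2 else nmax lo2 ((1048576 - hi0 - hi1 - g1) / (n - 3))) fun lo2 =>
  bif Nat.ble lo0 hi0 && Nat.ble lo1 hi1 && Nat.ble lo2 hi2 && Nat.ble B.g0 g1 && Nat.ble B.s0 B.s1 then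
    some ⟨lo0, hi0, lo1, hi1, lo2, hi2, B.g0, g1, B.s0, B.s1⟩
  else none

/-- upper bound of `x² - κ x` on `[lo, hi]` (in `2^-40`) -/
def supQ (kap lo hi : Int) : Int := imax (lo * lo - kap * lo) (hi * hi - kap * hi)

/-- four times a lower bound of `x² - κ x` on `[lo, hi]` -/
def infQ (kap lo hi : Int) : Int :=
  bif le kap (2 * lo) then 4 * (lo * lo - kap * lo)
  else bif le (2 * hi) kap then 4 * (hi * hi - kap * hi) else -(kap * kap)

/-- the bounds for `s`; `yq` selects the tangent point `C yq / 16` -/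
def clipS (ge : Bool) (n : Nat) (yq : Nat) (B : Box) : Option Box :=
  fzi B.hi2 fun C => fzi B.g0 fun G => fzi (C + G) fun kap =>
  fzi (imin
    (cdv (kap * 1048576 - (bif ge then n - 3 else n - 4 : Nat) * C * G + supQ kap B.lo0 B.hi0 +
      supQ kap B.lo1 B.hi1 + supQ kap B.lo2 B.hi2 + (bif ge then 0 else supQ kap B.g0 B.g1)) 1048576)
    (cdv (C * 1048576 + supQ C B.lo0 B.hi0 + supQ C B.lo1 B.hi1 + supQ C B.lo2 B.hi2) 1048576)) fun sh =>
  fzi (bif ge then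
      (4 * G * 1048576 + infQ G B.lo0 B.hi0 + infQ G B.lo1 B.hi1 + infQ G B.lo2 B.hi2) / 4194304
    else fzi (C * yq / 16) fun y =>
      (4 * (2 * y * 1048576 - (n - 4 : Nat) * (y * y)) + infQ (2 * y) B.lo0 B.hi0 + infQ (2 * y) B.lo1 B.hi1 +
        infQ (2 * y) B.lo2 B.hi2 + infQ (2 * y) B.g0 B.g1) / 4194304) fun sl =>
  match sh with
  | .negSucc _ => none
  | .ofNat sh => fz (nmin B.s1 sh) fun s1 => fz (nmax B.s0 sl.toNat) fun s0 =>
    bif Nat.ble s0 s1 then some ⟨B.lo0, B.hi0, B.lo1, B.hi1, B.lo2, B.hi2, B.g0, B.g1, s0, s1⟩ else none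

def clip (cls : Nat) (yq : Nat) (B : Box) : Option Box :=
  match clip1 (isGe cls) cls B with
  | none => none
  | some B => match clip1 (isGe cls) cls B with
    | none => none
    | some B => clipS (isGe cls) cls yq B

/-! ## the tree -/

inductive Tree (α : Type)
  /-- empty after clipping -/
  | E (yq : Nat)
  /-- no `t` left -/
  | F (yq i : Nat)
  | L (yq : Nat) (a : α)
  /-- split the coordinate `co` (`0, 1, 2`: largest squares, `3`: smallest, `4`: `s`) at `v` -/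
  | S (yq co v : Nat) (l r : Tree α)

/-- all leaves satisfy `P` -/
def Tree.All {α : Type} (P : α → Prop) : Tree α → Prop
  | .E _ => True
  | .F _ _ => True
  | .L _ a => P a
  | .S _ _ _ l r => Tree.All P l ∧ Tree.All P r

def boxSub (A B : Box) : Bool :=
  Nat.ble B.lo0 A.lo0 && Nat.ble A.hi0 B.hi0 && Nat.ble B.lo1 A.lo1 && Nat.ble A.hi1 B.hi1 &&
  Nat.ble B.lo2 A.lo2 && Nat.ble A.hi2 B.hi2 && Nat.ble B.g0 A.g0 && Nat.ble A.g1 B.g1 &&
  Nat.ble B.s0 A.s0 && Nat.ble A.s1 B.s1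

def setHi (co v : Nat) (B : Box) : Box :=
  match co with
  | 0 => ⟨B.lo0, v, B.lo1, B.hi1, B.lo2, B.hi2, B.g0, B.g1, B.s0, B.s1⟩
  | 1 => ⟨B.lo0, B.hi0, B.lo1, v, B.lo2, B.hi2, B.g0, B.g1, B.s0, B.s1⟩
  | 2 => ⟨B.lo0, B.hi0, B.lo1, B.hi1, B.lo2, v, B.g0, B.g1, B.s0, B.s1⟩
  | 3 => ⟨B.lo0, B.hi0, B.lo1, B.hi1, B.lo2, B.hi2, B.g0, v, B.s0, B.s1⟩
  | _ => ⟨B.lo0, B.hi0, B.lo1, B.hi1, B.lo2, B.hi2, B.g0, B.g1, B.s0, v⟩

def setLo (co v : Nat) (B : Box) : Box :=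
  match co with
  | 0 => ⟨v, B.hi0, B.lo1, B.hi1, B.lo2, B.hi2, B.g0, B.g1, B.s0, B.s1⟩
  | 1 => ⟨B.lo0, B.hi0, v, B.hi1, B.lo2, B.hi2, B.g0, B.g1, B.s0, B.s1⟩
  | 2 => ⟨B.lo0, B.hi0, B.lo1, B.hi1, v, B.hi2, B.g0, B.g1, B.s0, B.s1⟩
  | 3 => ⟨B.lo0, B.hi0, B.lo1, B.hi1, B.lo2, B.hi2, v, B.g1, B.s0, B.s1⟩
  | _ => ⟨B.lo0, B.hi0, B.lo1, B.hi1, B.lo2, B.hi2, B.g0, B.g1, v, B.s1⟩

def treeOK {α : Type} (cls : Nat) (bx : α → Box) : Tree α → Box → Bool
  | .E yq, B => match clip cls yq B with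
    | none => true
    | some _ => false
  | .F yq i, B => match clip cls yq B with
    | none => true
    | some B => startOK B i && fullOK cls B i
  | .L yq a, B => match clip cls yq B with
    | none => true
    | some B => boxSub B (bx a)
  | .S yq co v l r, B => match clip cls yq B with
    | none => true
    | some B => treeOK cls bx l (setHi co v B) && treeOK cls bx r (setLo co v B)

end Pool.Agent.H61.SC
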