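import Pool.Agent.H60.Big.Base
import Pool.Agent.H60.Slab.Defs
import Pool.Agent.H61.SC.Tree

/-!
# Points and boxes
-/

set_option autoImplicit false

open MeasureTheory Set

namespace Pool.Agent.H61.SC

open Pool.Agent.H64.Slab Pool.Agent.H60.Slab Pool.Agent.H60.Big Pool.Agent.H60.SL

/-- the class of a number of coordinates -/
def ClsN (cls n : ℕ) : Prop :=
  (cls = 3 ∧ (n = 3 ∨ n = 4)) ∨ (cls = 8 ∧ 8 ≤ n) ∨ (5 ≤ cls ∧ cls ≤ 7 ∧ n = cls)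

/-- the three largest coordinates and the smallest one -/
structure Srt {n : ℕ} (a : Fin n → ℝ) (i0 i1 i2 jm : Fin n) : Prop where
  pos : ∀ k, 0 < a k
  sum : ∑ k, a k ^ 2 = 1
  h01 : i0 ≠ i1
  h02 : i0 ≠ i2
  h12 : i1 ≠ i2
  m01 : a i1 ≤ a i0
  m12 : a i2 ≤ a i1
  rest : ∀ k, k ≠ i0 → k ≠ i1 → k ≠ i2 → a k ≤ a i2
  min : ∀ k, a jm ≤ a k
  jm0 : jm ≠ i0
  jm12 : 4 ≤ n → jm ≠ i1 ∧ jm ≠ i2

structure InBox (B : Box) {n : ℕ} (a : Fin n → ℝ) (i0 i1 i2 jm : Fin n) : Prop where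
  lo0 : (B.lo0 : ℝ) ≤ 2 ^ 20 * a i0 ^ 2
  hi0 : 2 ^ 20 * a i0 ^ 2 ≤ B.hi0
  lo1 : (B.lo1 : ℝ) ≤ 2 ^ 20 * a i1 ^ 2
  hi1 : 2 ^ 20 * a i1 ^ 2 ≤ B.hi1
  lo2 : (B.lo2 : ℝ) ≤ 2 ^ 20 * a i2 ^ 2
  hi2 : 2 ^ 20 * a i2 ^ 2 ≤ B.hi2
  g0 : (B.g0 : ℝ) ≤ 2 ^ 20 * a jm ^ 2
  g1 : 2 ^ 20 * a jm ^ 2 ≤ B.g1
  s0 : (B.s0 : ℝ) ≤ 2 ^ 20 * ∑ k, a k ^ 4
  s1 : 2 ^ 20 * ∑ k, a k ^ 4 ≤ B.s1

/-- the hypotheses on `t` -/
structure Sit (cls : ℕ) {n : ℕ} (a : Fin n → ℝ) (i0 i1 i2 jm : Fin n) (t : ℝ) : Prop where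
  srt : Srt a i0 i1 i2 jm
  cn : ClsN cls n
  lt : a jm < a i0
  t0 : 17 / 20 < t
  tK : 3 / 10 ≤ a i1 → a i0 + a i1 < t
  tS : t < ∑ k, a k
  tL : 3 * t ^ 2 ≤ 10 * (1 - 4 / 7 * (a i0 ^ 2 + a jm ^ 2))
  t3 : cls = 3 → t ≤ a i0 + a i1

/-- the conclusion -/
def Concl {m : ℕ} (a : Fin (m + 2) → ℝ) (i : Fin (m + 2)) (j : Fin (m + 1)) (t : ℝ) : Prop :=
  (∃ q, 1 ≤ q ∧ q ≤ m + 2 ∧ FV (stdVec (m + 2) q) t 0 ≤ FV a t 0) ∨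
  0 < ∫ x, LL 1 (a i + a (i.succAbove j)) (a i - a (i.succAbove j))
    (t + dot x (fun k => a (i.succAbove (j.succAbove k)))) ∂(cubeM m)

/-- the box is covered -/
def Good (cls : ℕ) (B : Box) : Prop :=
  ∀ (m : ℕ) (a : Fin (m + 2) → ℝ) (i : Fin (m + 2)) (j : Fin (m + 1)) (i1 i2 : Fin (m + 2)) (t : ℝ),
    Sit cls a i i1 i2 (i.succAbove j) t → InBox B a i i1 i2 (i.succAbove j) → Concl a i j t

/-! ## targets of the leaves -/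

/-- `T` leaf: the first alternative between the nodes `is` and `ie` -/
def T_TLEAF : Prop :=
  ∀ (cls : ℕ) (B : Box) (r : ℕ) (gx : Bool) (is ie : ℕ) (rho1 rho2 rho3 rhoG rc : ℤ) (dat : ℕ),
    tCheck cls B r gx is ie rho1 rho2 rho3 rhoG rc dat = true →
    ∀ (n : ℕ) (a : Fin n → ℝ) (i0 i1 i2 jm : Fin n), Srt a i0 i1 i2 jm → ClsN cls n →
      InBox B a i0 i1 i2 jm → ∀ t : ℝ, (tn is : ℝ) / 1000 ≤ t → t ≤ (tn ie : ℝ) / 1000 →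
        ∃ q, 1 ≤ q ∧ q ≤ n ∧ FV (stdVec n q) t 0 ≤ FV a t 0

/-- `P` leaf: the second alternative from `ptn ti` on -/
def T_PLEAF : Prop :=
  ∀ (cls : ℕ) (B : Box) (rr r ti : ℕ) (rA rG rB rc : ℤ) (rmode amode dat : ℕ),
    pCheck cls B rr r ti rA rG rB rc rmode amode dat = true → ti ≤ 16 →
    ∀ (m : ℕ) (a : Fin (m + 2) → ℝ) (i : Fin (m + 2)) (j : Fin (m + 1)) (i1 i2 : Fin (m + 2)),
      Srt a i i1 i2 (i.succAbove j) → ClsN cls (m + 2) → a (i.succAbove j) < a i →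
      InBox B a i i1 i2 (i.succAbove j) → ∀ t : ℝ, (ptn.getD ti 0 : ℝ) / 1000 ≤ t → t < ∑ k, a k →
        0 < ∫ x, LL 1 (a i + a (i.succAbove j)) (a i - a (i.succAbove j))
          (t + dot x (fun k => a (i.succAbove (j.succAbove k)))) ∂(cubeM m)

/-- `U` leaf -/
def T_ULEAF : Prop :=
  ∀ (cls : ℕ) (B : Box) (is ie : ℕ), uCheck cls B is ie = true →
    ∀ (m : ℕ) (a : Fin (m + 2) → ℝ) (i : Fin (m + 2)) (j : Fin (m + 1)) (i1 i2 : Fin (m + 2)) (t : ℝ),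
      Sit cls a i i1 i2 (i.succAbove j) t → InBox B a i i1 i2 (i.succAbove j) →
      (tn is : ℝ) / 1000 < t → t ≤ (tn ie : ℝ) / 1000 →
        ∃ q, 1 ≤ q ∧ q ≤ m + 2 ∧ FV (stdVec (m + 2) q) t 0 ≤ FV a t 0

/-- every relevant `t` is beyond the node -/
def T_START : Prop :=
  ∀ (cls : ℕ) (B : Box) (i : ℕ), startOK B i = true → ∀ (n : ℕ) (a : Fin n → ℝ) (i0 i1 i2 jm : Fin n)
    (t : ℝ), Sit cls a i0 i1 i2 jm t → InBox B a i0 i1 i2 jm → (tn i : ℝ) / 1000 < t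

/-- every relevant `t` is before the node -/
def T_FULL : Prop :=
  ∀ (cls : ℕ) (B : Box) (i : ℕ), fullOK cls B i = true → ∀ (n : ℕ) (a : Fin n → ℝ) (i0 i1 i2 jm : Fin n)
    (t : ℝ), Sit cls a i0 i1 i2 jm t → InBox B a i0 i1 i2 jm → t ≤ (tn i : ℝ) / 1000

/-- clipping keeps all points -/
def T_CLIP : Prop :=
  ∀ (cls yq : ℕ) (B : Box) (n : ℕ) (a : Fin n → ℝ) (i0 i1 i2 jm : Fin n), Srt a i0 i1 i2 jm →
    ClsN cls n → InBox B a i0 i1 i2 jm → ∃ B', clip cls yq B = some B' ∧ InBox B' a i0 i1 i2 jm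

end Pool.Agent.H61.SC
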