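import Pool.Agent.H61.SC.Clip
import Pool.Agent.H61.SC.Sit

/-!
# Clipping and the tree
-/

set_option autoImplicit false

open Set Finset

namespace Pool.Agent.H61.SC

/-! ## from sorted coordinates to numbers -/

theorem toList_sum {ι : Type*} (s : Finset ι) (f : ι → ℝ) : (s.toList.map f).sum = ∑ k ∈ s, f k :=
  Finset.sum_map_toList s f

section

variable {n : ℕ} {a : Fin n → ℝ} {i0 i1 i2 jm : Fin n}

/-- the indices different from the three largest ones -/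
def oth (i0 i1 i2 : Fin n) : Finset (Fin n) := ((univ.erase i0).erase i1).erase i2

theorem mem_oth {i0 i1 i2 k : Fin n} : k ∈ oth i0 i1 i2 ↔ k ≠ i2 ∧ k ≠ i1 ∧ k ≠ i0 := by
  unfold oth
  simp

theorem sum_oth (h01 : i0 ≠ i1) (h02 : i0 ≠ i2) (h12 : i1 ≠ i2) (f : Fin n → ℝ) :
    ∑ k, f k = f i0 + f i1 + f i2 + ∑ k ∈ oth i0 i1 i2, f k := by
  unfold oth
  rw [← add_sum_erase univ f (mem_univ i0), ← add_sum_erase (univ.erase i0) f (a := i1) (by simp [h01.symm]),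
    ← add_sum_erase ((univ.erase i0).erase i1) f (a := i2) (by simp [h02.symm, h12.symm])]
  ring

theorem card_oth (h01 : i0 ≠ i1) (h02 : i0 ≠ i2) (h12 : i1 ≠ i2) : (oth i0 i1 i2).card + 3 = n := by
  unfold oth
  have e0 := card_erase_add_one (s := univ) (mem_univ i0)
  have e1 := card_erase_add_one (s := univ.erase i0) (a := i1) (by simp [h01.symm])
  have e2 := card_erase_add_one (s := (univ.erase i0).erase i1) (a := i2) (by simp [h02.symm, h12.symm])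
  have e3 : (univ : Finset (Fin n)).card = n := by simp
  omega

theorem sq_le {x y : ℝ} (h0 : 0 ≤ x) (h : x ≤ y) : 2 ^ 20 * x ^ 2 ≤ 2 ^ 20 * y ^ 2 :=
  mul_le_mul_of_nonneg_left (pow_le_pow_left₀ h0 h 2) (by positivity)

theorem Srt.sumX (h : Srt a i0 i1 i2 jm) : ∑ k, 2 ^ 20 * a k ^ 2 = 1048576 := by
  rw [← mul_sum, h.sum]
  norm_num

theorem Srt.sqX (_h : Srt a i0 i1 i2 jm) :
    ∑ k, (2 ^ 20 * a k ^ 2) ^ 2 = 1048576 * (2 ^ 20 * ∑ k, a k ^ 4) := by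
  rw [mul_sum, mul_sum]
  refine sum_congr rfl fun k _ => ?_
  ring

theorem Srt.num_ge (h : Srt a i0 i1 i2 jm) {c : ℕ} (hc : c ≤ n) (h3 : 3 ≤ c) :
    Num true c (2 ^ 20 * a i0 ^ 2) (2 ^ 20 * a i1 ^ 2) (2 ^ 20 * a i2 ^ 2) (2 ^ 20 * a jm ^ 2)
      (2 ^ 20 * ∑ k, a k ^ 4) ((oth i0 i1 i2).toList.map fun k => 2 ^ 20 * a k ^ 2) where
  o1 := sq_le (h.pos _).le h.m01
  o2 := sq_le (h.pos _).le h.m12
  o3 := sq_le (h.pos _).le (h.min _)
  g0 := by positivity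
  n3 := h3
  n5 := fun h => by cases h
  mem := by
    intro x hx
    rw [List.mem_map] at hx
    obtain ⟨k, hk, rfl⟩ := hx
    rw [mem_toList, mem_oth] at hk
    exact ⟨sq_le (h.pos _).le (h.min _), sq_le (h.pos _).le (h.rest k hk.2.2 hk.2.1 hk.1)⟩
  len := by
    have := card_oth h.h01 h.h02 h.h12
    refine ⟨fun _ => ?_, fun h => by cases h⟩
    rw [List.length_map, length_toList]
    omega
  sum := by
    rw [cond_true, toList_sum, ← h.sumX, sum_oth h.h01 h.h02 h.h12]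
    ring
  sq := by
    rw [cond_true, List.map_map, toList_sum, ← h.sqX, sum_oth h.h01 h.h02 h.h12]
    simp only [Function.comp]
    ring

theorem Srt.num_ex (h : Srt a i0 i1 i2 jm) (h5 : 5 ≤ n) :
    Num false n (2 ^ 20 * a i0 ^ 2) (2 ^ 20 * a i1 ^ 2) (2 ^ 20 * a i2 ^ 2) (2 ^ 20 * a jm ^ 2)
      (2 ^ 20 * ∑ k, a k ^ 4) (((oth i0 i1 i2).erase jm).toList.map fun k => 2 ^ 20 * a k ^ 2) := by
  have hj : jm ∈ oth i0 i1 i2 := by
    rw [mem_oth]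
    have := h.jm12 (by omega)
    exact ⟨this.2, this.1, h.jm0⟩
  refine ⟨sq_le (h.pos _).le h.m01, sq_le (h.pos _).le h.m12, sq_le (h.pos _).le (h.min _), by positivity,
    by omega, fun _ => h5, ?_, ⟨fun h => (by cases h), fun _ => ?_⟩, ?_, ?_⟩
  · intro x hx
    rw [List.mem_map] at hx
    obtain ⟨k, hk, rfl⟩ := hx
    rw [mem_toList, mem_erase, mem_oth] at hk
    exact ⟨sq_le (h.pos _).le (h.min _), sq_le (h.pos _).le (h.rest k hk.2.2.2 hk.2.2.1 hk.2.1)⟩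
  · have e1 := card_oth h.h01 h.h02 h.h12
    have e2 := card_erase_add_one hj
    rw [List.length_map, length_toList]
    omega
  · rw [cond_false, toList_sum, ← h.sumX, sum_oth h.h01 h.h02 h.h12,
      ← add_sum_erase (oth i0 i1 i2) _ hj]
    ring
  · rw [cond_false, List.map_map, toList_sum, ← h.sqX, sum_oth h.h01 h.h02 h.h12,
      ← add_sum_erase (oth i0 i1 i2) _ hj]
    simp only [Function.comp]
    ring

theorem InBox.inB {B : Box} (h : InBox B a i0 i1 i2 jm) : InB B (2 ^ 20 * a i0 ^ 2) (2 ^ 20 * a i1 ^ 2)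
    (2 ^ 20 * a i2 ^ 2) (2 ^ 20 * a jm ^ 2) (2 ^ 20 * ∑ k, a k ^ 4) :=
  ⟨h.lo0, h.hi0, h.lo1, h.hi1, h.lo2, h.hi2, h.g0, h.g1, h.s0, h.s1⟩

theorem InB.inBox {B : Box} (h : InB B (2 ^ 20 * a i0 ^ 2) (2 ^ 20 * a i1 ^ 2)
    (2 ^ 20 * a i2 ^ 2) (2 ^ 20 * a jm ^ 2) (2 ^ 20 * ∑ k, a k ^ 4)) : InBox B a i0 i1 i2 jm :=
  ⟨h.lo0, h.hi0, h.lo1, h.hi1, h.lo2, h.hi2, h.g0, h.g1, h.s0, h.s1⟩

end

theorem isGe_iff {cls n : ℕ} (h : ClsN cls n) :
    (isGe cls = true ∧ cls ≤ n ∧ 3 ≤ cls) ∨ (isGe cls = false ∧ n = cls ∧ 5 ≤ n) := by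
  rcases h with ⟨h1, h2⟩ | ⟨h1, h2⟩ | ⟨h1, h2, h3⟩
  · subst h1
    exact Or.inl ⟨rfl, by omega, le_rfl⟩
  · subst h1
    exact Or.inl ⟨rfl, h2, by norm_num⟩
  · right
    refine ⟨?_, h3, by omega⟩
    have : cls = 5 ∨ cls = 6 ∨ cls = 7 := by omega
    rcases this with rfl | rfl | rfl <;> rfl

theorem clip_num {ge : Bool} {n : ℕ} {X0 X1 X2 g S : ℝ} {os : List ℝ} (h : Num ge n X0 X1 X2 g S os)
    {B : Box} (hB : InB B X0 X1 X2 g S) (yq : ℕ) :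
    ∃ B', (match clip1 ge n B with
      | none => none
      | some B => match clip1 ge n B with
        | none => none
        | some B => clipS ge n yq B) = some B' ∧ InB B' X0 X1 X2 g S := by
  obtain ⟨B1, e1, h1⟩ := clip1_sound h hB
  obtain ⟨B2, e2, h2⟩ := clip1_sound h h1
  obtain ⟨B3, e3, h3⟩ := clipS_sound h h2 yq
  refine ⟨B3, ?_, h3⟩
  simp only [e1, e2, e3]

theorem pf_CLIP : T_CLIP := by
  intro cls yq B n a i0 i1 i2 jm hS hc hB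
  rcases isGe_iff hc with ⟨hg, h1, h2⟩ | ⟨hg, h1, h2⟩
  · obtain ⟨B', e, h⟩ := clip_num (hS.num_ge h1 h2) hB.inB yq
    refine ⟨B', ?_, h.inBox⟩
    unfold clip
    rw [hg]
    exact e
  · obtain ⟨B', e, h⟩ := clip_num (hS.num_ex h2) hB.inB yq
    refine ⟨B', ?_, h.inBox⟩
    unfold clip
    rw [hg, ← h1]
    exact e

/-! ## the tree -/

theorem Good.mono {cls : ℕ} {A B : Box} (h : Good cls B) (hs : boxSub A B = true) : Good cls A := by
  intro m a i j i1 i2 t hS hA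
  refine h m a i j i1 i2 t hS ?_
  unfold boxSub at hs
  simp only [Bool.and_eq_true] at hs
  obtain ⟨⟨⟨⟨⟨⟨⟨⟨⟨s1, s2⟩, s3⟩, s4⟩, s5⟩, s6⟩, s7⟩, s8⟩, s9⟩, s10⟩ := hs
  have c : ∀ {x y : ℕ}, Nat.ble x y = true → (x : ℝ) ≤ y := fun h => by
    exact_mod_cast Nat.le_of_ble_eq_true h
  exact ⟨(c s1).trans hA.lo0, hA.hi0.trans (c s2), (c s3).trans hA.lo1, hA.hi1.trans (c s4),
    (c s5).trans hA.lo2, hA.hi2.trans (c s6), (c s7).trans hA.g0, hA.g1.trans (c s8),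
    (c s9).trans hA.s0, hA.s1.trans (c s10)⟩

theorem split_box {n : ℕ} {a : Fin n → ℝ} {i0 i1 i2 jm : Fin n} {B : Box} (h : InBox B a i0 i1 i2 jm)
    (co v : ℕ) : InBox (setHi co v B) a i0 i1 i2 jm ∨ InBox (setLo co v B) a i0 i1 i2 jm := by
  unfold setHi setLo
  match co with
  | 0 =>
    rcases le_total (2 ^ 20 * a i0 ^ 2) (v : ℝ) with hv | hv
    · exact Or.inl ⟨h.lo0, hv, h.lo1, h.hi1, h.lo2, h.hi2, h.g0, h.g1, h.s0, h.s1⟩
    · exact Or.inr ⟨hv, h.hi0, h.lo1, h.hi1, h.lo2, h.hi2, h.g0, h.g1, h.s0, h.s1⟩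
  | 1 =>
    rcases le_total (2 ^ 20 * a i1 ^ 2) (v : ℝ) with hv | hv
    · exact Or.inl ⟨h.lo0, h.hi0, h.lo1, hv, h.lo2, h.hi2, h.g0, h.g1, h.s0, h.s1⟩
    · exact Or.inr ⟨h.lo0, h.hi0, hv, h.hi1, h.lo2, h.hi2, h.g0, h.g1, h.s0, h.s1⟩
  | 2 =>
    rcases le_total (2 ^ 20 * a i2 ^ 2) (v : ℝ) with hv | hv
    · exact Or.inl ⟨h.lo0, h.hi0, h.lo1, h.hi1, h.lo2, hv, h.g0, h.g1, h.s0, h.s1⟩
    · exact Or.inr ⟨h.lo0, h.hi0, h.lo1, h.hi1, hv, h.hi2, h.g0, h.g1, h.s0, h.s1⟩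
  | 3 =>
    rcases le_total (2 ^ 20 * a jm ^ 2) (v : ℝ) with hv | hv
    · exact Or.inl ⟨h.lo0, h.hi0, h.lo1, h.hi1, h.lo2, h.hi2, h.g0, hv, h.s0, h.s1⟩
    · exact Or.inr ⟨h.lo0, h.hi0, h.lo1, h.hi1, h.lo2, h.hi2, hv, h.g1, h.s0, h.s1⟩
  | k + 4 =>
    rcases le_total (2 ^ 20 * ∑ k, a k ^ 4) (v : ℝ) with hv | hv
    · exact Or.inl ⟨h.lo0, h.hi0, h.lo1, h.hi1, h.lo2, h.hi2, h.g0, h.g1, h.s0, hv⟩
    · exact Or.inr ⟨h.lo0, h.hi0, h.lo1, h.hi1, h.lo2, h.hi2, h.g0, h.g1, hv, h.s1⟩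

theorem tree_sound (hst : T_START) (hfu : T_FULL) {α : Type} (cls : ℕ) (bx : α → Box) :
    ∀ (T : Tree α) (B : Box), treeOK cls bx T B = true → Tree.All (fun x => Good cls (bx x)) T → Good cls B
  | .E yq, B, h, _ => by
    intro m a i j i1 i2 t hS hB
    obtain ⟨B', e, h'⟩ := pf_CLIP cls yq B _ a i i1 i2 _ hS.srt hS.cn hB
    rw [treeOK, e] at h
    cases h
  | .F yq k, B, h, _ => by
    intro m a i j i1 i2 t hS hB
    obtain ⟨B', e, h'⟩ := pf_CLIP cls yq B _ a i i1 i2 _ hS.srt hS.cn hB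
    rw [treeOK, e] at h
    simp only [Bool.and_eq_true] at h
    have h1 := hst cls B' k h.1 _ a i i1 i2 _ t hS h'
    have h2 := hfu cls B' k h.2 _ a i i1 i2 _ t hS h'
    linarith
  | .L yq x, B, h, hA => by
    intro m a i j i1 i2 t hS hB
    obtain ⟨B', e, h'⟩ := pf_CLIP cls yq B _ a i i1 i2 _ hS.srt hS.cn hB
    rw [treeOK, e] at h
    exact Good.mono hA h m a i j i1 i2 t hS h'
  | .S yq co v l r, B, h, hA => by
    intro m a i j i1 i2 t hS hB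
    obtain ⟨B', e, h'⟩ := pf_CLIP cls yq B _ a i i1 i2 _ hS.srt hS.cn hB
    rw [treeOK, e] at h
    simp only [Bool.and_eq_true] at h
    rcases split_box h' co v with h3 | h3
    · exact tree_sound hst hfu cls bx l _ h.1 hA.1 m a i j i1 i2 t hS h3
    · exact tree_sound hst hfu cls bx r _ h.2 hA.2 m a i j i1 i2 t hS h3

/-- good leaves -/
theorem leaf_good (hst : T_START) (hfu : T_FULL) (hT : T_TLEAF) (hP : T_PLEAF) (hU : T_ULEAF) (cls : ℕ)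
    (l : Leaf) (h : leafOK cls l = true) : Good cls l.box := by
  intro m a i j i1 i2 t hS hB
  cases l with
  | T B r gx is ie rho1 rho2 rho3 rhoG rc dat =>
    unfold leafOK at h
    simp only [Bool.and_eq_true] at h
    have h1 := hst cls B is h.1.1 _ a i i1 i2 _ t hS hB
    have h2 := hfu cls B ie h.1.2 _ a i i1 i2 _ t hS hB
    exact Or.inl (hT cls B r gx is ie rho1 rho2 rho3 rhoG rc dat h.2 _ a i i1 i2 _ hS.srt hS.cn hB t h1.le h2)
  | U B is ie =>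
    unfold leafOK at h
    simp only [Bool.and_eq_true] at h
    have h1 := hst cls B is h.1.1 _ a i i1 i2 _ t hS hB
    have h2 := hfu cls B ie h.1.2 _ a i i1 i2 _ t hS hB
    exact Or.inl (hU cls B is ie h.2 m a i j i1 i2 t hS hB h1 h2)
  | TP B r gx is ie rho1 rho2 rho3 rhoG rc dat rr pr ti rA rG rB rcp rmode amode pdat =>
    unfold leafOK at h
    simp only [Bool.and_eq_true] at h
    obtain ⟨⟨⟨⟨g1, g2⟩, g3⟩, g4⟩, g5⟩ := h
    have h1 := hst cls B is g1 _ a i i1 i2 _ t hS hB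
    have h4 : ((ptn.getD ti 0 : ℕ) : ℝ) ≤ tn ie := by exact_mod_cast Nat.le_of_ble_eq_true g4
    rcases le_total t ((tn ie : ℝ) / 1000) with h2 | h2
    · exact Or.inl (hT cls B r gx is ie rho1 rho2 rho3 rhoG rc dat g2 _ a i i1 i2 _ hS.srt hS.cn hB t h1.le h2)
    · refine Or.inr (hP cls B rr pr ti rA rG rB rcp rmode amode pdat g5 (Nat.le_of_ble_eq_true g3) m a i j
        i1 i2 hS.srt hS.cn hS.lt hB t ?_ hS.tS)
      refine le_trans ?_ h2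
      exact div_le_div_of_nonneg_right h4 (by norm_num)

theorem all_imp {α : Type} {P Q : α → Prop} (h : ∀ x, P x → Q x) : ∀ T : Tree α, Tree.All P T → Tree.All Q T
  | .E _, _ => trivial
  | .F _ _, _ => trivial
  | .L _ x, hx => h x hx
  | .S _ _ _ l r, hx => ⟨all_imp h l hx.1, all_imp h r hx.2⟩

end Pool.Agent.H61.SC
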