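import Pool.Agent.H60.SC.Wrap
import Pool.Agent.H61.SC.ClipF

/-!
# From the checks to covered boxes
-/

set_option autoImplicit false

open Set

namespace Pool.Agent.H61.SC

open Pool.Agent.H60.SC (pf_TLEAF pf_PLEAF pf_START pf_FULL pf_ULEAF')

theorem pf_ULEAF : T_ULEAF := pf_ULEAF'

theorem leaf_good' (cls : ℕ) (l : Leaf) (h : leafOK cls l = true) : Good cls l.box :=
  leaf_good pf_START pf_FULL pf_TLEAF pf_PLEAF pf_ULEAF cls l h

/-- a tree of leaves -/
theorem chunk_good {cls : ℕ} {T : Tree Leaf} {B : Box} (h1 : treeOK cls Leaf.box T B = true)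
    (h2 : Tree.All (fun l => leafOK cls l = true) T) : Good cls B :=
  tree_sound pf_START pf_FULL cls Leaf.box T B h1 (all_imp (leaf_good' cls) T h2)

/-- a tree of boxes -/
theorem top_good {cls : ℕ} {T : Tree Box} {B : Box} (h1 : treeOK cls id T B = true)
    (h2 : Tree.All (Good cls) T) : Good cls B :=
  tree_sound pf_START pf_FULL cls id T B h1 h2

end Pool.Agent.H61.SC
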