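import Pool.Agent.H60.SC.PAlias
import Pool.Agent.H61.SC.Tree

/-!
# Clipping keeps all points
-/

set_option autoImplicit false

open Set

namespace Pool.Agent.H61.SC

open Pool.Agent.H60.SC (fz_eq fzi_eq nmin_eq nmax_eq imin_eq imax_eq ble_true ble_false ble_iff isqLo_sq isqHi_sq cdv_real ediv_real_le)
open Pool.Agent.H60.SL.Ck (nn le le_iff)

/-! ## numbers -/

theorem le_nmin' {x : ℝ} {a b : ℕ} (h1 : x ≤ a) (h2 : x ≤ b) : x ≤ (nmin a b : ℕ) := by
  rw [nmin_eq]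
  rcases le_total a b with h | h
  · rwa [min_eq_left h]
  · rwa [min_eq_right h]

theorem nmax_le' {x : ℝ} {a b : ℕ} (h1 : (a : ℝ) ≤ x) (h2 : (b : ℝ) ≤ x) : ((nmax a b : ℕ) : ℝ) ≤ x := by
  rw [nmax_eq]
  rcases le_total a b with h | h
  · rwa [max_eq_right h]
  · rwa [max_eq_left h]

theorem le_isqHi {x : ℝ} {q : ℕ} (h : x ^ 2 ≤ q) : x ≤ (isqHi q : ℕ) := by
  have h1 : (q : ℝ) ≤ (isqHi q : ℝ) * (isqHi q : ℝ) := by exact_mod_cast isqHi_sq q
  have h2 : (0 : ℝ) ≤ (isqHi q : ℝ) := Nat.cast_nonneg _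
  nlinarith

theorem le_cdvN {x : ℝ} {a b : ℕ} (hb : 0 < b) (h : x * b ≤ a) : x ≤ (cdvN a b : ℕ) := by
  have hb' : (0 : ℝ) < b := by exact_mod_cast hb
  have h1 : a ≤ cdvN a b * b := by
    unfold cdvN
    have h2 := Nat.div_add_mod (a + (b - 1)) b
    have h3 := Nat.mod_lt (a + (b - 1)) hb
    have h4 : (a + (b - 1)) / b * b = b * ((a + (b - 1)) / b) := Nat.mul_comm _ _
    omega
  have h2 : (a : ℝ) ≤ (cdvN a b : ℝ) * b := by exact_mod_cast h1
  nlinarith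

theorem div_le' {x : ℝ} {a b : ℕ} (hb : 0 < b) (h : (a : ℝ) ≤ b * x) : ((a / b : ℕ) : ℝ) ≤ x := by
  have hb' : (0 : ℝ) < b := by exact_mod_cast hb
  refine Nat.cast_div_le.trans ?_
  rw [div_le_iff₀ hb']
  linarith

theorem cast_sub_ge (a b : ℕ) : (a : ℝ) - b ≤ ((a - b : ℕ) : ℝ) := by
  rcases le_total b a with h | h
  · rw [Nat.cast_sub h]
  · rw [Nat.sub_eq_zero_of_le h]
    have : (a : ℝ) ≤ b := by exact_mod_cast h
    push_cast
    linarith

theorem cast_sub_le {x : ℝ} (hx : 0 ≤ x) {a b : ℕ} (h : (a : ℝ) - b ≤ x) : ((a - b : ℕ) : ℝ) ≤ x := by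
  rcases le_total b a with h1 | h1
  · rw [Nat.cast_sub h1]; exact h
  · rw [Nat.sub_eq_zero_of_le h1]; simpa using hx

theorem blt_false {a b : ℕ} (h : b ≤ a) : Nat.blt a b = false := by
  cases e : Nat.blt a b
  · rfl
  · have h2 := Nat.le_of_ble_eq_true (show Nat.ble (a + 1) b = true from e)
    omega

/-! ## the numerical situation -/

/-- `X0 ≥ X1 ≥ X2` the largest squares, `g` the smallest, `os` the other ones -/
structure Num (ge : Bool) (n : ℕ) (X0 X1 X2 g S : ℝ) (os : List ℝ) : Prop where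
  o1 : X1 ≤ X0
  o2 : X2 ≤ X1
  o3 : g ≤ X2
  g0 : 0 ≤ g
  n3 : 3 ≤ n
  n5 : ge = false → 5 ≤ n
  mem : ∀ x ∈ os, g ≤ x ∧ x ≤ X2
  len : (ge = true → n ≤ os.length + 3) ∧ (ge = false → n = os.length + 4)
  sum : X0 + X1 + X2 + (bif ge then 0 else g) + os.sum = 1048576
  sq : X0 ^ 2 + X1 ^ 2 + X2 ^ 2 + (bif ge then 0 else g ^ 2) + (os.map (fun x => x ^ 2)).sum = 1048576 * S

structure InB (B : Box) (X0 X1 X2 g S : ℝ) : Prop where
  lo0 : (B.lo0 : ℝ) ≤ X0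
  hi0 : X0 ≤ B.hi0
  lo1 : (B.lo1 : ℝ) ≤ X1
  hi1 : X1 ≤ B.hi1
  lo2 : (B.lo2 : ℝ) ≤ X2
  hi2 : X2 ≤ B.hi2
  g0 : (B.g0 : ℝ) ≤ g
  g1 : g ≤ B.g1
  s0 : (B.s0 : ℝ) ≤ S
  s1 : S ≤ B.s1

section

variable {ge : Bool} {n : ℕ} {X0 X1 X2 g S : ℝ} {os : List ℝ}

theorem list_sum_le {c : ℝ} {f : ℝ → ℝ} : ∀ {l : List ℝ}, (∀ x ∈ l, f x ≤ c) → (l.map f).sum ≤ l.length * c
  | [], _ => by simp
  | x :: l, h => by
    have h1 := h x (by simp)
    have h2 := list_sum_le (l := l) fun y hy => h y (by simp [hy])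
    simp only [List.map_cons, List.sum_cons, List.length_cons]
    push_cast
    linarith

theorem le_list_sum {c : ℝ} {f : ℝ → ℝ} : ∀ {l : List ℝ}, (∀ x ∈ l, c ≤ f x) → l.length * c ≤ (l.map f).sum
  | [], _ => by simp
  | x :: l, h => by
    have h1 := h x (by simp)
    have h2 := le_list_sum (l := l) fun y hy => h y (by simp [hy])
    simp only [List.map_cons, List.sum_cons, List.length_cons]
    push_cast
    linarith

theorem list_sum_lin (p q : ℝ) : ∀ l : List ℝ, (l.map (fun x => p * x ^ 2 + q * x)).sum =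
    p * (l.map (fun x => x ^ 2)).sum + q * l.sum
  | [] => by simp
  | x :: l => by
    simp only [List.map_cons, List.sum_cons, list_sum_lin p q l]
    ring

theorem sum_id (l : List ℝ) : (l.map (fun x => x)).sum = l.sum := by simp

theorem Num.X2nn (h : Num ge n X0 X1 X2 g S os) : 0 ≤ X2 := h.g0.trans h.o3

theorem Num.X1nn (h : Num ge n X0 X1 X2 g S os) : 0 ≤ X1 := h.X2nn.trans h.o2

theorem Num.X0nn (h : Num ge n X0 X1 X2 g S os) : 0 ≤ X0 := h.X1nn.trans h.o1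

theorem Num.sqle (h : Num ge n X0 X1 X2 g S os) : X0 ^ 2 + X1 ^ 2 + X2 ^ 2 ≤ 1048576 * S := by
  have h1 : (0 : ℝ) ≤ (os.map (fun x => x ^ 2)).sum := by
    have := le_list_sum (c := 0) (f := fun x => x ^ 2) (l := os) fun x _ => sq_nonneg x
    simpa using this
  have h2 := h.sq
  cases ge
  · simp only [cond_false] at h2
    nlinarith [sq_nonneg g]
  · simp only [cond_true] at h2
    linarith

/-- the number of the other coordinates times the smallest one -/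
theorem Num.upg (h : Num ge n X0 X1 X2 g S os) : X0 + X1 + X2 + ((n : ℝ) - 3) * g ≤ 1048576 := by
  have h1 := le_list_sum (c := g) (f := fun x => x) (l := os) fun x hx => (h.mem x hx).1
  rw [sum_id] at h1
  have h2 := h.sum
  have hg := h.g0
  cases hge : ge
  · have h3 := h.len.2 hge
    rw [hge] at h2
    simp only [cond_false] at h2
    have h4 : (n : ℝ) = os.length + 4 := by rw [h3]; push_cast; ring
    rw [h4]
    nlinarith
  · have h3 := h.len.1 hge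
    rw [hge] at h2
    simp only [cond_true] at h2
    have h4 : (n : ℝ) ≤ os.length + 3 := by exact_mod_cast h3
    nlinarith [mul_le_mul_of_nonneg_right (show (n : ℝ) - 3 ≤ os.length by linarith) hg]

theorem Num.ex (h : Num ge n X0 X1 X2 g S os) (hge : ge = false) :
    1048576 ≤ X0 + X1 + ((n : ℝ) - 3) * X2 + g := by
  have h1 := list_sum_le (c := X2) (f := fun x => x) (l := os) fun x hx => (h.mem x hx).2
  rw [sum_id] at h1
  have h2 := h.sum
  have h3 := h.len.2 hge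
  rw [hge] at h2
  simp only [cond_false] at h2
  have h4 : (n : ℝ) = os.length + 4 := by rw [h3]; push_cast; ring
  rw [h4]
  nlinarith


theorem clip1_sound (h : Num ge n X0 X1 X2 g S os) {B : Box} (hB : InB B X0 X1 X2 g S) :
    ∃ B', clip1 ge n B = some B' ∧ InB B' X0 X1 X2 g S := by
  have p2 := h.X2nn
  have p1 := h.X1nn
  have p0 := h.X0nn
  have hsq := h.sqle
  have hup := h.upg
  have hn3 : (3 : ℝ) ≤ n := by exact_mod_cast h.n3
  unfold clip1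
  simp only [fz_eq]
  have c1 : X1 ≤ (nmin B.hi1 B.hi0 : ℕ) := le_nmin' hB.hi1 (h.o1.trans hB.hi0)
  generalize nmin B.hi1 B.hi0 = hi1 at c1 ⊢
  have c2 : X2 ≤ (nmin B.hi2 hi1 : ℕ) := le_nmin' hB.hi2 (h.o2.trans c1)
  generalize nmin B.hi2 hi1 = hi2 at c2 ⊢
  have c3 : g ≤ (nmin B.g1 hi2 : ℕ) := le_nmin' hB.g1 (h.o3.trans c2)
  generalize nmin B.g1 hi2 = g1 at c3 ⊢
  have d2 : ((nmax B.lo2 B.g0 : ℕ) : ℝ) ≤ X2 := nmax_le' hB.lo2 (hB.g0.trans h.o3)
  generalize nmax B.lo2 B.g0 = lo2 at d2 ⊢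
  have d1 : ((nmax B.lo1 lo2 : ℕ) : ℝ) ≤ X1 := nmax_le' hB.lo1 (d2.trans h.o2)
  generalize nmax B.lo1 lo2 = lo1 at d1 ⊢
  have d0 : ((nmax B.lo0 lo1 : ℕ) : ℝ) ≤ X0 := nmax_le' hB.lo0 (d1.trans h.o1)
  generalize nmax B.lo0 lo1 = lo0 at d0 ⊢
  -- squares
  have hq : X0 ^ 2 + X1 ^ 2 + X2 ^ 2 ≤ ((B.s1 * 1048576 : ℕ) : ℝ) := by
    push_cast
    have := hB.s1
    linarith
  generalize B.s1 * 1048576 = q at hq ⊢
  have c0 : X0 ≤ (nmin B.hi0 (isqHi q) : ℕ) := by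
    refine le_nmin' hB.hi0 (le_isqHi ?_)
    linarith [sq_nonneg X1, sq_nonneg X2]
  generalize nmin B.hi0 (isqHi q) = hi0 at c0 ⊢
  have e0 : ((lo0 * lo0 : ℕ) : ℝ) ≤ X0 ^ 2 := by
    push_cast
    have : (0 : ℝ) ≤ lo0 := Nat.cast_nonneg _
    rw [sq]
    exact mul_le_mul d0 d0 this p0
  have e0' : lo0 * lo0 ≤ q := by
    have : ((lo0 * lo0 : ℕ) : ℝ) ≤ q := by linarith [sq_nonneg X1, sq_nonneg X2]
    exact_mod_cast this
  have f0 : Nat.blt q (lo0 * lo0) = false := blt_false e0'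
  rw [f0, cond_false]
  have hq1 : X1 ^ 2 + X2 ^ 2 ≤ ((q - lo0 * lo0 : ℕ) : ℝ) := by
    rw [Nat.cast_sub e0']
    linarith
  generalize q - lo0 * lo0 = q1 at hq1 ⊢
  have c1' : X1 ≤ (nmin hi1 (isqHi q1) : ℕ) := by
    refine le_nmin' c1 (le_isqHi ?_)
    linarith [sq_nonneg X2]
  generalize nmin hi1 (isqHi q1) = hi1' at c1' ⊢
  have c2' : X2 ≤ (nmin hi2 (isqHi (cdvN q1 2)) : ℕ) := by
    refine le_nmin' c2 (le_isqHi (le_cdvN (by norm_num) ?_))
    push_cast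
    have h12 : X2 ^ 2 ≤ X1 ^ 2 := pow_le_pow_left₀ p2 h.o2 2
    linarith
  generalize nmin hi2 (isqHi (cdvN q1 2)) = hi2' at c2' ⊢
  have e1 : ((lo1 * lo1 : ℕ) : ℝ) ≤ X1 ^ 2 := by
    push_cast
    have : (0 : ℝ) ≤ lo1 := Nat.cast_nonneg _
    rw [sq]
    exact mul_le_mul d1 d1 this p1
  have e1' : lo1 * lo1 ≤ q1 := by
    have : ((lo1 * lo1 : ℕ) : ℝ) ≤ q1 := by linarith [sq_nonneg X2]
    exact_mod_cast this
  have f1 : Nat.blt q1 (lo1 * lo1) = false := blt_false e1'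
  rw [f1, cond_false]
  have hq2 : X2 ^ 2 ≤ ((q1 - lo1 * lo1 : ℕ) : ℝ) := by
    rw [Nat.cast_sub e1']
    linarith
  have c2'' : X2 ≤ (nmin hi2' (isqHi (q1 - lo1 * lo1)) : ℕ) := le_nmin' c2' (le_isqHi hq2)
  generalize nmin hi2' (isqHi (q1 - lo1 * lo1)) = hi2'' at c2'' ⊢
  -- sums
  have hR : (((n - 3) * B.g0 : ℕ) : ℝ) ≤ ((n : ℝ) - 3) * g := by
    push_cast [Nat.cast_sub h.n3]
    exact mul_le_mul_of_nonneg_left hB.g0 (by linarith)
  generalize (n - 3) * B.g0 = R at hR ⊢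
  have k0 : X0 ≤ (nmin hi0 (1048576 - lo1 - lo2 - R) : ℕ) := by
    refine le_nmin' c0 ?_
    have a1 := cast_sub_ge (1048576 - lo1 - lo2) R
    have a2 := cast_sub_ge (1048576 - lo1) lo2
    have a3 := cast_sub_ge 1048576 lo1
    push_cast at a1 a2 a3 ⊢
    linarith
  generalize nmin hi0 (1048576 - lo1 - lo2 - R) = hi0' at k0 ⊢
  have k1 : X1 ≤ (nmin (nmin hi1' (1048576 - lo0 - lo2 - R)) (cdvN (1048576 - lo2 - R) 2) : ℕ) := by
    have a1 := cast_sub_ge (1048576 - lo0 - lo2) R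
    have a2 := cast_sub_ge (1048576 - lo0) lo2
    have a3 := cast_sub_ge 1048576 lo0
    have b1 := cast_sub_ge (1048576 - lo2) R
    have b2 := cast_sub_ge 1048576 lo2
    push_cast at a1 a2 a3 b1 b2
    refine le_nmin' (le_nmin' c1' ?_) (le_cdvN (by norm_num) ?_)
    · push_cast
      linarith
    · push_cast
      linarith [h.o1]
  generalize nmin (nmin hi1' (1048576 - lo0 - lo2 - R)) (cdvN (1048576 - lo2 - R) 2) = hi1'' at k1 ⊢
  have k2 : X2 ≤ (nmin (nmin (nmin hi2'' (1048576 - lo0 - lo1 - R)) (cdvN (1048576 - lo0 - R) 2))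
      (cdvN (1048576 - R) 3) : ℕ) := by
    have a1 := cast_sub_ge (1048576 - lo0 - lo1) R
    have a2 := cast_sub_ge (1048576 - lo0) lo1
    have a3 := cast_sub_ge 1048576 lo0
    have b1 := cast_sub_ge (1048576 - lo0) R
    have d1 := cast_sub_ge 1048576 R
    push_cast at a1 a2 a3 b1 d1
    refine le_nmin' (le_nmin' (le_nmin' c2'' ?_) (le_cdvN (by norm_num) ?_)) (le_cdvN (by norm_num) ?_)
    · push_cast
      linarith
    · push_cast
      linarith [h.o1, h.o2]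
    · push_cast
      linarith [h.o1, h.o2]
  generalize nmin (nmin (nmin hi2'' (1048576 - lo0 - lo1 - R)) (cdvN (1048576 - lo0 - R) 2))
      (cdvN (1048576 - R) 3) = hi2f at k2 ⊢
  have kg : g ≤ (nmin (bif Nat.ble n 3 then g1 else nmin g1 (cdvN (1048576 - lo0 - lo1 - lo2) (n - 3))) hi2f : ℕ) := by
    refine le_nmin' ?_ (h.o3.trans k2)
    cases hn : Nat.ble n 3
    · rw [cond_false]
      have h3 := ble_false hn
      refine le_nmin' c3 (le_cdvN (by omega) ?_)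
      have a1 := cast_sub_ge (1048576 - lo0 - lo1) lo2
      have a2 := cast_sub_ge (1048576 - lo0) lo1
      have a3 := cast_sub_ge 1048576 lo0
      push_cast [Nat.cast_sub h.n3] at a1 a2 a3 ⊢
      linarith
    · rw [cond_true]
      exact c3
  generalize nmin (bif Nat.ble n 3 then g1 else nmin g1 (cdvN (1048576 - lo0 - lo1 - lo2) (n - 3))) hi2f = g1f
    at kg ⊢
  have l0 : (((bif ge then lo0 else nmax lo0 (1048576 - hi1'' - (n - 3) * hi2f - g1f)) : ℕ) : ℝ) ≤ X0 := by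
    cases hge : ge
    · rw [cond_false]
      have hex := h.ex hge
      refine nmax_le' d0 (cast_sub_le p0 ?_)
      have hn : (((n - 3) * hi2f : ℕ) : ℝ) = ((n : ℝ) - 3) * hi2f := by push_cast [Nat.cast_sub h.n3]; ring
      have hm := mul_le_mul_of_nonneg_left k2 (by linarith : (0 : ℝ) ≤ (n : ℝ) - 3)
      have x1 : ((1048576 - hi1'' - (n - 3) * hi2f : ℕ) : ℝ) ≤ X0 + g := by
        refine cast_sub_le (by linarith [h.g0]) ?_
        have z2 := mul_nonneg (by linarith : (0 : ℝ) ≤ (n : ℝ) - 3) p2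
        have x2 : ((1048576 - hi1'' : ℕ) : ℝ) ≤ X0 + g + ((n : ℝ) - 3) * X2 :=
          cast_sub_le (by linarith [h.g0]) (by push_cast; linarith)
        rw [hn]
        linarith
      linarith
    · rw [cond_true]
      exact d0
  generalize (bif ge then lo0 else nmax lo0 (1048576 - hi1'' - (n - 3) * hi2f - g1f)) = lo0f at l0 ⊢
  have l1 : (((bif ge then lo1 else nmax (nmax lo1 (1048576 - hi0' - (n - 3) * hi2f - g1f))
      ((1048576 - hi0' - g1f) / (n - 2))) : ℕ) : ℝ) ≤ X1 := by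
    cases hge : ge
    · rw [cond_false]
      have hex := h.ex hge
      have h5 := h.n5 hge
      have hn : (((n - 3) * hi2f : ℕ) : ℝ) = ((n : ℝ) - 3) * hi2f := by push_cast [Nat.cast_sub h.n3]; ring
      have hm := mul_le_mul_of_nonneg_left k2 (by linarith : (0 : ℝ) ≤ (n : ℝ) - 3)
      refine nmax_le' (nmax_le' d1 (cast_sub_le p1 ?_)) (div_le' (by omega) (cast_sub_le ?_ ?_))
      · have x1 : ((1048576 - hi0' - (n - 3) * hi2f : ℕ) : ℝ) ≤ X1 + g := by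
          refine cast_sub_le (by linarith [h.g0]) ?_
          have z2 := mul_nonneg (by linarith : (0 : ℝ) ≤ (n : ℝ) - 3) p2
          have x2 : ((1048576 - hi0' : ℕ) : ℝ) ≤ X1 + g + ((n : ℝ) - 3) * X2 :=
            cast_sub_le (by linarith [h.g0]) (by push_cast; linarith)
          rw [hn]
          linarith
        linarith
      · positivity
      · have hn2 : ((n - 2 : ℕ) : ℝ) = (n : ℝ) - 2 := by push_cast [Nat.cast_sub (show 2 ≤ n by omega)]; ring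
        rw [hn2]
        have x1 : ((1048576 - hi0' : ℕ) : ℝ) ≤ ((n : ℝ) - 2) * X1 + g := by
          have y1 := mul_le_mul_of_nonneg_left h.o2 (by linarith : (0 : ℝ) ≤ (n : ℝ) - 3)
          have z2 := mul_nonneg (by linarith : (0 : ℝ) ≤ (n : ℝ) - 2) p1
          refine cast_sub_le (by linarith [h.g0]) ?_
          push_cast
          linarith
        linarith
    · rw [cond_true]
      exact d1
  generalize (bif ge then lo1 else nmax (nmax lo1 (1048576 - hi0' - (n - 3) * hi2f - g1f))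
      ((1048576 - hi0' - g1f) / (n - 2))) = lo1f at l1 ⊢
  have l2 : (((bif ge then lo2 else nmax lo2 ((1048576 - hi0' - hi1'' - g1f) / (n - 3))) : ℕ) : ℝ) ≤ X2 := by
    cases hge : ge
    · rw [cond_false]
      have hex := h.ex hge
      have h5 := h.n5 hge
      refine nmax_le' d2 (div_le' (by omega) (cast_sub_le ?_ ?_))
      · positivity
      · have hn2 : ((n - 3 : ℕ) : ℝ) = (n : ℝ) - 3 := by push_cast [Nat.cast_sub h.n3]; ring
        rw [hn2]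
        have hm : 0 ≤ ((n : ℝ) - 3) * X2 := mul_nonneg (by linarith) p2
        have x1 : ((1048576 - hi0' - hi1'' : ℕ) : ℝ) ≤ ((n : ℝ) - 3) * X2 + g := by
          refine cast_sub_le (by linarith [h.g0]) ?_
          have x2 : ((1048576 - hi0' : ℕ) : ℝ) ≤ X1 + ((n : ℝ) - 3) * X2 + g :=
            cast_sub_le (by linarith [h.g0]) (by push_cast; linarith)
          linarith
        linarith
    · rw [cond_true]
      exact d2
  generalize (bif ge then lo2 else nmax lo2 ((1048576 - hi0' - hi1'' - g1f) / (n - 3))) = lo2f at l2 ⊢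
  have t0 : Nat.ble lo0f hi0' = true := ble_iff.2 (by exact_mod_cast l0.trans k0)
  have t1 : Nat.ble lo1f hi1'' = true := ble_iff.2 (by exact_mod_cast l1.trans k1)
  have t2 : Nat.ble lo2f hi2f = true := ble_iff.2 (by exact_mod_cast l2.trans k2)
  have t3 : Nat.ble B.g0 g1f = true := ble_iff.2 (by exact_mod_cast hB.g0.trans kg)
  have t4 : Nat.ble B.s0 B.s1 = true := ble_iff.2 (by exact_mod_cast hB.s0.trans hB.s1)
  rw [t0, t1, t2, t3, t4]
  exact ⟨_, rfl, ⟨l0, k0, l1, k1, l2, k2, hB.g0, kg, hB.s0, hB.s1⟩⟩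

theorem supQ_ge {kap lo hi : ℤ} {x : ℝ} (h1 : (lo : ℝ) ≤ x) (h2 : x ≤ hi) :
    x ^ 2 - kap * x ≤ ((supQ kap lo hi : ℤ) : ℝ) := by
  unfold supQ
  rw [imax_eq, Int.cast_max]
  push_cast
  rcases le_total ((lo : ℝ) + x) kap with h | h
  · refine le_trans ?_ (le_max_left _ _)
    nlinarith [mul_nonneg (sub_nonneg.2 h1) (sub_nonneg.2 h)]
  · refine le_trans ?_ (le_max_right _ _)
    nlinarith [mul_nonneg (sub_nonneg.2 h2) (sub_nonneg.2 h), mul_nonneg (sub_nonneg.2 h2) (sub_nonneg.2 h1)]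

theorem infQ_le {kap lo hi : ℤ} {x : ℝ} (h1 : (lo : ℝ) ≤ x) (h2 : x ≤ hi) :
    ((infQ kap lo hi : ℤ) : ℝ) ≤ 4 * (x ^ 2 - kap * x) := by
  unfold infQ
  cases e1 : le kap (2 * lo)
  · rw [cond_false]
    cases e2 : le (2 * hi) kap
    · rw [cond_false]
      push_cast
      nlinarith [sq_nonneg (2 * x - kap)]
    · rw [cond_true]
      have h3 : (2 : ℝ) * hi ≤ kap := by exact_mod_cast le_iff.1 e2
      push_cast
      nlinarith [mul_nonneg (sub_nonneg.2 h2) (by linarith : (0 : ℝ) ≤ kap - hi - x)]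
  · rw [cond_true]
    have h3 : (kap : ℝ) ≤ 2 * lo := by exact_mod_cast le_iff.1 e1
    push_cast
    nlinarith [mul_nonneg (sub_nonneg.2 h1) (by linarith : (0 : ℝ) ≤ x + lo - kap)]

/-- the squares through `x² - κ x` -/
theorem Num.sqk (h : Num ge n X0 X1 X2 g S os) (kap : ℝ) :
    1048576 * S = kap * 1048576 + (X0 ^ 2 - kap * X0) + (X1 ^ 2 - kap * X1) + (X2 ^ 2 - kap * X2) +
      (bif ge then 0 else g ^ 2 - kap * g) + (os.map (fun x => 1 * x ^ 2 + (-kap) * x)).sum := by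
  rw [list_sum_lin]
  have h1 := h.sum
  have h2 := h.sq
  cases ge
  · simp only [cond_false] at h1 h2 ⊢
    rw [← h2]
    have : os.sum = 1048576 - X0 - X1 - X2 - g := by linarith
    rw [this]
    ring
  · simp only [cond_true] at h1 h2 ⊢
    rw [← h2]
    have : os.sum = 1048576 - X0 - X1 - X2 := by linarith
    rw [this]
    ring

theorem clipS_sh1 (h : Num ge n X0 X1 X2 g S os) {B : Box} (hB : InB B X0 X1 X2 g S) :
    1048576 * S ≤ ((((B.hi2 : ℤ) + B.g0) * 1048576 - (bif ge then n - 3 else n - 4 : ℕ) * B.hi2 * B.g0 +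
      supQ ((B.hi2 : ℤ) + B.g0) B.lo0 B.hi0 + supQ ((B.hi2 : ℤ) + B.g0) B.lo1 B.hi1 +
      supQ ((B.hi2 : ℤ) + B.g0) B.lo2 B.hi2 +
      (bif ge then 0 else supQ ((B.hi2 : ℤ) + B.g0) B.g0 B.g1) : ℤ) : ℝ) := by
  have a0 := supQ_ge (kap := (B.hi2 : ℤ) + B.g0) (lo := (B.lo0 : ℤ)) (hi := (B.hi0 : ℤ)) (x := X0)
    (by exact_mod_cast hB.lo0) (by exact_mod_cast hB.hi0)
  have a1 := supQ_ge (kap := (B.hi2 : ℤ) + B.g0) (lo := (B.lo1 : ℤ)) (hi := (B.hi1 : ℤ)) (x := X1)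
    (by exact_mod_cast hB.lo1) (by exact_mod_cast hB.hi1)
  have a2 := supQ_ge (kap := (B.hi2 : ℤ) + B.g0) (lo := (B.lo2 : ℤ)) (hi := (B.hi2 : ℤ)) (x := X2)
    (by exact_mod_cast hB.lo2) (by exact_mod_cast hB.hi2)
  have ag := supQ_ge (kap := (B.hi2 : ℤ) + B.g0) (lo := (B.g0 : ℤ)) (hi := (B.g1 : ℤ)) (x := g)
    (by exact_mod_cast hB.g0) (by exact_mod_cast hB.g1)
  rw [h.sqk (((B.hi2 : ℤ) + B.g0 : ℤ) : ℝ)]
  have hC : (0 : ℝ) ≤ B.hi2 := Nat.cast_nonneg _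
  have hG : (0 : ℝ) ≤ B.g0 := Nat.cast_nonneg _
  have hos := list_sum_le (c := -((B.hi2 : ℝ) * B.g0))
    (f := fun x => 1 * x ^ 2 + (-((((B.hi2 : ℤ) + B.g0 : ℤ)) : ℝ)) * x) (l := os) fun x hx => by
      have m := h.mem x hx
      have m1 : (B.g0 : ℝ) ≤ x := hB.g0.trans m.1
      have m2 : x ≤ B.hi2 := m.2.trans hB.hi2
      push_cast
      nlinarith [mul_nonneg (sub_nonneg.2 m1) (sub_nonneg.2 m2)]
  have hCG := mul_nonneg hC hG
  cases hge : ge
  · have hl := h.len.2 hge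
    have h5 := h.n5 hge
    have hl' : ((n - 4 : ℕ) : ℝ) = os.length := by
      have : n - 4 = os.length := by omega
      rw [this]
    simp only [cond_false]
    push_cast at a0 a1 a2 ag hos ⊢
    rw [hl']
    linarith
  · have hl := h.len.1 hge
    have hl' : ((n - 3 : ℕ) : ℝ) ≤ os.length := by
      have : n - 3 ≤ os.length := by omega
      exact_mod_cast this
    simp only [cond_true]
    push_cast at a0 a1 a2 ag hos ⊢
    nlinarith [mul_le_mul_of_nonneg_right hl' hCG]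

theorem clipS_sh2 (h : Num ge n X0 X1 X2 g S os) {B : Box} (hB : InB B X0 X1 X2 g S) :
    1048576 * S ≤ (((B.hi2 : ℤ) * 1048576 + supQ B.hi2 B.lo0 B.hi0 + supQ B.hi2 B.lo1 B.hi1 +
      supQ B.hi2 B.lo2 B.hi2 : ℤ) : ℝ) := by
  have a0 := supQ_ge (kap := (B.hi2 : ℤ)) (lo := (B.lo0 : ℤ)) (hi := (B.hi0 : ℤ)) (x := X0)
    (by exact_mod_cast hB.lo0) (by exact_mod_cast hB.hi0)
  have a1 := supQ_ge (kap := (B.hi2 : ℤ)) (lo := (B.lo1 : ℤ)) (hi := (B.hi1 : ℤ)) (x := X1)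
    (by exact_mod_cast hB.lo1) (by exact_mod_cast hB.hi1)
  have a2 := supQ_ge (kap := (B.hi2 : ℤ)) (lo := (B.lo2 : ℤ)) (hi := (B.hi2 : ℤ)) (x := X2)
    (by exact_mod_cast hB.lo2) (by exact_mod_cast hB.hi2)
  rw [h.sqk (((B.hi2 : ℤ)) : ℝ)]
  have hg := h.g0
  have hos := list_sum_le (c := 0)
    (f := fun x => 1 * x ^ 2 + (-(((B.hi2 : ℤ)) : ℝ)) * x) (l := os) fun x hx => by
      have m := h.mem x hx
      have m1 : 0 ≤ x := hg.trans m.1
      have m2 : x ≤ B.hi2 := m.2.trans hB.hi2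
      push_cast
      nlinarith [mul_nonneg m1 (sub_nonneg.2 m2)]
  have hgg : g ^ 2 - (B.hi2 : ℝ) * g ≤ 0 := by
    have : g ≤ B.hi2 := h.o3.trans hB.hi2
    nlinarith
  cases ge
  · simp only [cond_false]
    push_cast at a0 a1 a2 hos ⊢
    linarith
  · simp only [cond_true]
    push_cast at a0 a1 a2 hos ⊢
    linarith

theorem clipS_sl1 (h : Num ge n X0 X1 X2 g S os) {B : Box} (hB : InB B X0 X1 X2 g S) (hge : ge = true) :
    ((4 * (B.g0 : ℤ) * 1048576 + infQ B.g0 B.lo0 B.hi0 + infQ B.g0 B.lo1 B.hi1 + infQ B.g0 B.lo2 B.hi2 : ℤ) : ℝ)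
      ≤ 4194304 * S := by
  have a0 := infQ_le (kap := (B.g0 : ℤ)) (lo := (B.lo0 : ℤ)) (hi := (B.hi0 : ℤ)) (x := X0)
    (by exact_mod_cast hB.lo0) (by exact_mod_cast hB.hi0)
  have a1 := infQ_le (kap := (B.g0 : ℤ)) (lo := (B.lo1 : ℤ)) (hi := (B.hi1 : ℤ)) (x := X1)
    (by exact_mod_cast hB.lo1) (by exact_mod_cast hB.hi1)
  have a2 := infQ_le (kap := (B.g0 : ℤ)) (lo := (B.lo2 : ℤ)) (hi := (B.hi2 : ℤ)) (x := X2)
    (by exact_mod_cast hB.lo2) (by exact_mod_cast hB.hi2)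
  have hs := h.sqk (((B.g0 : ℤ)) : ℝ)
  have hG : (0 : ℝ) ≤ B.g0 := Nat.cast_nonneg _
  have hos := le_list_sum (c := 0)
    (f := fun x => 1 * x ^ 2 + (-(((B.g0 : ℤ)) : ℝ)) * x) (l := os) fun x hx => by
      have m := h.mem x hx
      have m1 : (B.g0 : ℝ) ≤ x := hB.g0.trans m.1
      push_cast
      nlinarith [mul_nonneg (hG.trans m1) (sub_nonneg.2 m1)]
  rw [hge] at hs
  simp only [cond_true] at hs
  push_cast at a0 a1 a2 hos hs ⊢
  linarith

theorem clipS_sl2 (h : Num ge n X0 X1 X2 g S os) {B : Box} (hB : InB B X0 X1 X2 g S) (hge : ge = false)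
    (y : ℤ) :
    ((4 * (2 * y * 1048576 - (n - 4 : ℕ) * (y * y)) + infQ (2 * y) B.lo0 B.hi0 + infQ (2 * y) B.lo1 B.hi1 +
        infQ (2 * y) B.lo2 B.hi2 + infQ (2 * y) B.g0 B.g1 : ℤ) : ℝ) ≤ 4194304 * S := by
  have a0 := infQ_le (kap := 2 * y) (lo := (B.lo0 : ℤ)) (hi := (B.hi0 : ℤ)) (x := X0)
    (by exact_mod_cast hB.lo0) (by exact_mod_cast hB.hi0)
  have a1 := infQ_le (kap := 2 * y) (lo := (B.lo1 : ℤ)) (hi := (B.hi1 : ℤ)) (x := X1)
    (by exact_mod_cast hB.lo1) (by exact_mod_cast hB.hi1)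
  have a2 := infQ_le (kap := 2 * y) (lo := (B.lo2 : ℤ)) (hi := (B.hi2 : ℤ)) (x := X2)
    (by exact_mod_cast hB.lo2) (by exact_mod_cast hB.hi2)
  have ag := infQ_le (kap := 2 * y) (lo := (B.g0 : ℤ)) (hi := (B.g1 : ℤ)) (x := g)
    (by exact_mod_cast hB.g0) (by exact_mod_cast hB.g1)
  have hs := h.sqk ((2 * y : ℤ) : ℝ)
  have hos := le_list_sum (c := -(y : ℝ) ^ 2)
    (f := fun x => 1 * x ^ 2 + (-((2 * y : ℤ) : ℝ)) * x) (l := os) fun x hx => by
      push_cast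
      nlinarith [sq_nonneg (x - y)]
  have hl := h.len.2 hge
  have h5 := h.n5 hge
  have hl' : ((n - 4 : ℕ) : ℝ) = os.length := by
    have : n - 4 = os.length := by omega
    rw [this]
  rw [hge] at hs
  simp only [cond_false] at hs
  push_cast at a0 a1 a2 ag hos hs ⊢
  rw [hl']
  nlinarith

theorem clipS_sound (h : Num ge n X0 X1 X2 g S os) {B : Box} (hB : InB B X0 X1 X2 g S) (yq : ℕ) :
    ∃ B', clipS ge n yq B = some B' ∧ InB B' X0 X1 X2 g S := by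
  have hS0 : 0 ≤ S := (Nat.cast_nonneg _).trans hB.s0
  unfold clipS
  simp only [fzi_eq, fz_eq]
  have q1 := clipS_sh1 h hB
  have q2 := clipS_sh2 h hB
  generalize ((B.hi2 : ℤ) + B.g0) * 1048576 - ((bif ge then n - 3 else n - 4 : ℕ) : ℤ) * B.hi2 * B.g0 +
      supQ ((B.hi2 : ℤ) + B.g0) B.lo0 B.hi0 + supQ ((B.hi2 : ℤ) + B.g0) B.lo1 B.hi1 +
      supQ ((B.hi2 : ℤ) + B.g0) B.lo2 B.hi2 +
      (bif ge then 0 else supQ ((B.hi2 : ℤ) + B.g0) B.g0 B.g1) = V1 at q1 ⊢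
  generalize (B.hi2 : ℤ) * 1048576 + supQ B.hi2 B.lo0 B.hi0 + supQ B.hi2 B.lo1 B.hi1 +
      supQ B.hi2 B.lo2 B.hi2 = V2 at q2 ⊢
  have c1 := cdv_real V1 (b := 1048576) (by norm_num)
  have c2 := cdv_real V2 (b := 1048576) (by norm_num)
  have r1 : S ≤ ((imin (cdv V1 1048576) (cdv V2 1048576) : ℤ) : ℝ) := by
    rw [imin_eq, Int.cast_min]
    refine le_min ?_ ?_
    · push_cast at c1
      refine le_trans ?_ c1
      rw [le_div_iff₀ (by norm_num)]
      linarith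
    · push_cast at c2
      refine le_trans ?_ c2
      rw [le_div_iff₀ (by norm_num)]
      linarith
  generalize imin (cdv V1 1048576) (cdv V2 1048576) = sh at r1 ⊢
  have r2 : (((bif ge then
      (4 * (B.g0 : ℤ) * 1048576 + infQ B.g0 B.lo0 B.hi0 + infQ B.g0 B.lo1 B.hi1 + infQ B.g0 B.lo2 B.hi2) / 4194304
    else
      (4 * (2 * ((B.hi2 : ℤ) * yq / 16) * 1048576 - (n - 4 : ℕ) * (((B.hi2 : ℤ) * yq / 16) * ((B.hi2 : ℤ) * yq / 16))) +
        infQ (2 * ((B.hi2 : ℤ) * yq / 16)) B.lo0 B.hi0 + infQ (2 * ((B.hi2 : ℤ) * yq / 16)) B.lo1 B.hi1 +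
        infQ (2 * ((B.hi2 : ℤ) * yq / 16)) B.lo2 B.hi2 + infQ (2 * ((B.hi2 : ℤ) * yq / 16)) B.g0 B.g1) / 4194304) : ℤ) : ℝ) ≤ S := by
    cases hge : ge
    · rw [cond_false]
      have q3 := clipS_sl2 h hB hge ((B.hi2 : ℤ) * yq / 16)
      have q4 := ediv_real_le (4 * (2 * ((B.hi2 : ℤ) * yq / 16) * 1048576 - (n - 4 : ℕ) * (((B.hi2 : ℤ) * yq / 16) * ((B.hi2 : ℤ) * yq / 16))) +
        infQ (2 * ((B.hi2 : ℤ) * yq / 16)) B.lo0 B.hi0 + infQ (2 * ((B.hi2 : ℤ) * yq / 16)) B.lo1 B.hi1 +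
        infQ (2 * ((B.hi2 : ℤ) * yq / 16)) B.lo2 B.hi2 + infQ (2 * ((B.hi2 : ℤ) * yq / 16)) B.g0 B.g1) (b := 4194304) (by norm_num)
      refine q4.trans ?_
      rw [div_le_iff₀ (by norm_num)]
      refine q3.trans (le_of_eq ?_)
      push_cast
      ring
    · rw [cond_true]
      have q3 := clipS_sl1 h hB hge
      have q4 := ediv_real_le (4 * (B.g0 : ℤ) * 1048576 + infQ B.g0 B.lo0 B.hi0 + infQ B.g0 B.lo1 B.hi1 + infQ B.g0 B.lo2 B.hi2)
        (b := 4194304) (by norm_num)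
      refine q4.trans ?_
      rw [div_le_iff₀ (by norm_num)]
      refine q3.trans (le_of_eq ?_)
      push_cast
      ring
  generalize (bif ge then
      (4 * (B.g0 : ℤ) * 1048576 + infQ B.g0 B.lo0 B.hi0 + infQ B.g0 B.lo1 B.hi1 + infQ B.g0 B.lo2 B.hi2) / 4194304
    else
      (4 * (2 * ((B.hi2 : ℤ) * yq / 16) * 1048576 - (n - 4 : ℕ) * (((B.hi2 : ℤ) * yq / 16) * ((B.hi2 : ℤ) * yq / 16))) +
        infQ (2 * ((B.hi2 : ℤ) * yq / 16)) B.lo0 B.hi0 + infQ (2 * ((B.hi2 : ℤ) * yq / 16)) B.lo1 B.hi1 +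
        infQ (2 * ((B.hi2 : ℤ) * yq / 16)) B.lo2 B.hi2 + infQ (2 * ((B.hi2 : ℤ) * yq / 16)) B.g0 B.g1) / 4194304) = sl at r2 ⊢
  cases sh with
  | negSucc k =>
    exfalso
    have : ((Int.negSucc k : ℤ) : ℝ) < 0 := by exact_mod_cast Int.negSucc_lt_zero k
    linarith
  | ofNat sh =>
    have r1' : S ≤ (sh : ℝ) := by simpa using r1
    have u1 : S ≤ (nmin B.s1 sh : ℕ) := le_nmin' hB.s1 r1'
    have u0 : ((nmax B.s0 sl.toNat : ℕ) : ℝ) ≤ S := by
      refine nmax_le' hB.s0 ?_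
      rcases le_total 0 sl with h0 | h0
      · have : ((sl.toNat : ℤ) : ℝ) = sl := by rw [Int.toNat_of_nonneg h0]
        have e : ((sl.toNat : ℕ) : ℝ) = ((sl.toNat : ℤ) : ℝ) := by push_cast; rfl
        rw [e, this]
        exact r2
      · rw [Int.toNat_of_nonpos h0]
        simpa using hS0
    simp only
    have t : Nat.ble (nmax B.s0 sl.toNat) (nmin B.s1 sh) = true := ble_iff.2 (by exact_mod_cast u0.trans u1)
    rw [t, cond_true]
    exact ⟨_, rfl, ⟨hB.lo0, hB.hi0, hB.lo1, hB.hi1, hB.lo2, hB.hi2, hB.g0, hB.g1, u0, u1⟩⟩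

end

end Pool.Agent.H61.SC
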