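import Pool.Agent.H60.SC.Cover

/-!
# The cover from the root boxes
-/

set_option autoImplicit false

open Set Finset

namespace Pool.Agent.H61.SC

open Pool.Agent.H60.SL Pool.Agent.H60.SC

section

variable {n : ℕ} {a : Fin n → ℝ} {i0 i1 i2 jm : Fin n}

theorem Srt.sq_le_one (h : Srt a i0 i1 i2 jm) (k : Fin n) : a k ^ 2 ≤ 1 := by
  rw [← h.sum]
  exact single_le_sum (f := fun k => a k ^ 2) (fun i _ => sq_nonneg _) (mem_univ k)

theorem Srt.S_le (h : Srt a i0 i1 i2 jm) : ∑ k, a k ^ 4 ≤ 1 := by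
  rw [← h.sum]
  refine sum_le_sum fun k _ => ?_
  nlinarith [sq_nonneg (a k), h.sq_le_one k]

theorem Srt.inRoot (h : Srt a i0 i1 i2 jm) {lo hi h1 : ℕ} (hlo : (lo : ℝ) ≤ 2 ^ 20 * a i0 ^ 2)
    (hhi : 2 ^ 20 * a i0 ^ 2 ≤ hi) (hh : 2 ^ 20 * a i1 ^ 2 ≤ h1) :
    InBox ⟨lo, hi, 0, h1, 0, 1048576, 0, 1048576, 0, 1048576⟩ a i0 i1 i2 jm := by
  have k : ∀ k, 2 ^ 20 * a k ^ 2 ≤ ((1048576 : ℕ) : ℝ) := fun k => by
    have := h.sq_le_one k
    push_cast
    linarith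
  refine ⟨hlo, hhi, ?_, hh, ?_, k i2, ?_, k jm, ?_, ?_⟩
  · simp only [Nat.cast_zero]; positivity
  · simp only [Nat.cast_zero]; positivity
  · simp only [Nat.cast_zero]; positivity
  · simp only [Nat.cast_zero]; positivity
  · have := h.S_le
    push_cast
    linarith

theorem Srt.le0 (h : Srt a i0 i1 i2 jm) (k : Fin n) : a k ≤ a i0 := by
  by_cases h0 : k = i0
  · rw [h0]
  by_cases h1 : k = i1
  · rw [h1]; exact h.m01
  by_cases h2 : k = i2
  · rw [h2]; exact h.m12.trans h.m01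
  exact (h.rest k h0 h1 h2).trans (h.m12.trans h.m01)

theorem Srt.le1 (h : Srt a i0 i1 i2 jm) (k : Fin n) (h0 : k ≠ i0) : a k ≤ a i1 := by
  by_cases h1 : k = i1
  · rw [h1]
  by_cases h2 : k = i2
  · rw [h2]; exact h.m12
  exact (h.rest k h0 h1 h2).trans h.m12

theorem Srt.low0 (h : Srt a i0 i1 i2 jm) : 1 ≤ n * a i0 ^ 2 := by
  have h1 : ∑ k, a k ^ 2 ≤ ∑ _k : Fin n, a i0 ^ 2 :=
    sum_le_sum fun k _ => pow_le_pow_left₀ (h.pos k).le (h.le0 k) 2
  rw [h.sum] at h1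
  simpa using h1

theorem Srt.low3 (h : Srt a i0 i1 i2 jm) (hn : n ≤ 4) (h3 : a i1 < 3 / 10) : 73 / 100 ≤ a i0 ^ 2 := by
  have h1 : ∑ k ∈ univ.erase i0, a k ^ 2 ≤ ∑ _k ∈ univ.erase i0, (9 / 100 : ℝ) := by
    refine sum_le_sum fun k hk => ?_
    have h2 := (h.le1 k (ne_of_mem_erase hk)).trans h3.le
    have h4 := pow_le_pow_left₀ (h.pos k).le h2 2
    refine h4.trans (le_of_eq (by norm_num))
  have h5 := add_sum_erase univ (fun k => a k ^ 2) (mem_univ i0)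
  rw [h.sum] at h5
  rw [sum_const, nsmul_eq_mul] at h1
  have h6 : ((univ.erase i0 : Finset (Fin n)).card : ℝ) ≤ 3 := by
    have : (univ.erase i0 : Finset (Fin n)).card ≤ 3 := by
      rw [card_erase_of_mem (mem_univ i0)]
      simp
      omega
    exact_mod_cast this
  have h7 : a i0 ^ 2 + ∑ k ∈ univ.erase i0, a k ^ 2 = 1 := h5
  linarith

end

theorem cover_of_good (g3 : Good 3 ⟨757596, 926522, 0, 94435, 0, 1048576, 0, 1048576, 0, 1048576⟩)
    (g5 : Good 5 ⟨203004, 926522, 0, 1048576, 0, 1048576, 0, 1048576, 0, 1048576⟩)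
    (g6 : Good 6 ⟨167772, 926522, 0, 1048576, 0, 1048576, 0, 1048576, 0, 1048576⟩)
    (g7 : Good 7 ⟨143550, 926522, 0, 1048576, 0, 1048576, 0, 1048576, 0, 1048576⟩)
    (g8 : Good 8 ⟨0, 926522, 0, 1048576, 0, 1048576, 0, 1048576, 0, 1048576⟩) : CoverProp := by
  refine cover_of fun m a i j i1 i2 t hS h47 _ => ?_
  have hs := hS.srt
  have hp := (hs.pos i).le
  have hhi : 2 ^ 20 * a i ^ 2 ≤ ((926522 : ℕ) : ℝ) := by
    have := pow_le_pow_left₀ hp h47.le 2
    push_cast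
    linarith
  have h1 : 2 ^ 20 * a i1 ^ 2 ≤ ((1048576 : ℕ) : ℝ) := by
    have := hs.sq_le_one i1
    push_cast
    linarith
  have hl := hs.low0
  rcases hS.cn with ⟨hc, hn⟩ | ⟨hc, hn⟩ | ⟨hc5, hc7, hn⟩
  · rw [hc] at hS
    have h3 : a i1 < 3 / 10 := by
      by_contra hcon
      have := hS.tK (not_lt.1 hcon)
      have := hS.t3 rfl
      linarith
    have hl3 := hs.low3 (by omega) h3
    refine g3 m a i j i1 i2 t hS (hs.inRoot ?_ hhi ?_)
    · push_cast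
      linarith
    · have := pow_le_pow_left₀ (hs.pos i1).le h3.le 2
      push_cast
      linarith
  · rw [hc] at hS
    exact g8 m a i j i1 i2 t hS (hs.inRoot (by simp only [Nat.cast_zero]; positivity) hhi h1)
  · have hcases : clsOf (m + 2) = 5 ∨ clsOf (m + 2) = 6 ∨ clsOf (m + 2) = 7 := by omega
    rcases hcases with hc | hc | hc
    · rw [hc] at hS hn
      rw [hn] at hl
      refine g5 m a i j i1 i2 t hS (hs.inRoot ?_ hhi h1)
      push_cast at hl ⊢
      linarith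
    · rw [hc] at hS hn
      rw [hn] at hl
      refine g6 m a i j i1 i2 t hS (hs.inRoot ?_ hhi h1)
      push_cast at hl ⊢
      linarith
    · rw [hc] at hS hn
      rw [hn] at hl
      refine g7 m a i j i1 i2 t hS (hs.inRoot ?_ hhi h1)
      push_cast at hl ⊢
      linarith

end Pool.Agent.H61.SC
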