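import Pool.Agent.H61.SC.Fin
import Pool.Agent.H61.SC.D.Top3
import Pool.Agent.H61.SC.D.Top5
import Pool.Agent.H61.SC.D.Top6
import Pool.Agent.H61.SC.D.Top7
import Pool.Agent.H61.SC.D.Top8

/-!
# The numerical cover
-/

set_option autoImplicit false

namespace Pool.Agent.H61.SC

theorem cover : Pool.Agent.H60.SL.CoverProp :=
  cover_of_good D.Top3.good D.Top5.good D.Top6.good D.Top7.good D.Top8.good

theorem core : Pool.Agent.H60.SL.CoreProp := Pool.Agent.H60.SL.core_of_cover cover

end Pool.Agent.H61.SC
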